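import Mathlib

set_option linter.unusedSectionVars false
set_option linter.unusedVariables false

namespace Pool.Agent.H97.Flow

open Finset

variable {V : Type} [Fintype V] [DecidableEq V]

/-- A set of pairwise nonadjacent vertices. -/
def Stable (G : SimpleGraph V) (S : Finset V) : Prop := ∀ a ∈ S, ∀ b ∈ S, ¬ G.Adj a b

/-- one service step -/
def add (x : V → ℕ) (T : Finset V) : V → ℕ := fun w => x w + if w ∈ T then 1 else 0

/-- the result of a list of services -/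
def exec (x : V → ℕ) : List (Finset V) → (V → ℕ)
  | [] => x
  | T :: Ts => exec (add x T) Ts

/-- a list of services that is legal for the jobs counted by `B` -/
def PlanOK (G : SimpleGraph V) (B : V → ℕ) : (V → ℕ) → List (Finset V) → Prop
  | _, [] => True
  | x, T :: Ts => Stable G T ∧ (∀ w ∈ T, x w < B w) ∧ PlanOK G B (add x T) Ts

lemma exec_append (x : V → ℕ) (l l' : List (Finset V)) :
    exec x (l ++ l') = exec (exec x l) l' := by
  induction l generalizing x with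
  | nil => rfl
  | cons T Ts ih => simp [exec, ih]

lemma planOK_append (G : SimpleGraph V) (B : V → ℕ) (x : V → ℕ) (l l' : List (Finset V)) :
    PlanOK G B x (l ++ l') ↔ PlanOK G B x l ∧ PlanOK G B (exec x l) l' := by
  induction l generalizing x with
  | nil => simp [PlanOK, exec]
  | cons T Ts ih => simp [PlanOK, exec, ih, and_assoc]

lemma le_add (x : V → ℕ) (T : Finset V) (w : V) : x w ≤ add x T w := by
  unfold add; omega

lemma le_exec (x : V → ℕ) (l : List (Finset V)) (w : V) : x w ≤ exec x l w := by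
  induction l generalizing x with
  | nil => simp [exec]
  | cons T Ts ih => exact (le_add x T w).trans (ih _)

/-- the reference trajectories compatible with what is known at time `t0`, for the value `a` -/
structure Opt (G : SimpleGraph V) (R : ℕ → V → ℕ) (a t0 : ℕ) (y : ℕ → V → ℕ) : Prop where
  step : ∀ s, ∃ S, Stable G S ∧ y (s + 1) = add (y s) S
  le : ∀ s ≤ t0, ∀ w, y s w ≤ R s w
  ge : ∀ s < t0, ∀ w, R (s + 1) w ≤ y (s + a) w

/-- the clique inequality at algorithm time `t` with reference time `s` -/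
def J (G : SimpleGraph V) (Λ s t : ℕ) (x : V → ℕ) (y : ℕ → V → ℕ) : Prop :=
  ∀ K : Finset V, G.IsClique (K : Set V) → ∑ w ∈ K, (y s w - x w) + (t - s) ≤ Λ

def Safe (G : SimpleGraph V) (R : ℕ → V → ℕ) (a t0 Λ s t : ℕ) (x : V → ℕ) : Prop :=
  ∀ y, Opt G R a t0 y → J G Λ s t x y

lemma Opt.mono_time {G : SimpleGraph V} {R : ℕ → V → ℕ} {a t0 t1 : ℕ} {y : ℕ → V → ℕ}
    (h : Opt G R a t1 y) (h01 : t0 ≤ t1) : Opt G R a t0 y :=
  ⟨h.step, fun s hs => h.le s (hs.trans h01), fun s hs => h.ge s (hs.trans_le h01)⟩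

lemma Opt.mono {G : SimpleGraph V} {R : ℕ → V → ℕ} {a t0 : ℕ} {y : ℕ → V → ℕ}
    (h : Opt G R a t0 y) (w : V) : Monotone (fun s => y s w) := by
  refine monotone_nat_of_le_succ fun s => ?_
  obtain ⟨S, _, hS⟩ := h.step s
  show y s w ≤ y (s + 1) w
  rw [hS]; exact le_add _ _ _

lemma Opt.mono_a {G : SimpleGraph V} {R : ℕ → V → ℕ} {a a' t0 : ℕ} {y : ℕ → V → ℕ}
    (h : Opt G R a t0 y) (haa : a ≤ a') : Opt G R a' t0 y :=
  ⟨h.step, h.le, fun s hs w => (h.ge s hs w).trans (h.mono w (by omega))⟩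

/-- a stable set meets a clique at most once -/
lemma stable_clique {G : SimpleGraph V} {S K : Finset V} (hS : Stable G S)
    (hK : G.IsClique (K : Set V)) : ∑ w ∈ K, (if w ∈ S then 1 else 0) ≤ 1 := by
  rw [← Finset.card_filter]
  rw [Finset.card_le_one]
  intro a ha b hb
  by_contra hab
  simp only [Finset.mem_filter] at ha hb
  exact hS a ha.2 b hb.2 (hK (by simpa using ha.1) (by simpa using hb.1) hab)

lemma Opt.clique_step {G : SimpleGraph V} {R : ℕ → V → ℕ} {a t0 : ℕ} {y : ℕ → V → ℕ}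
    (h : Opt G R a t0 y) (s : ℕ) (x : V → ℕ) {K : Finset V} (hK : G.IsClique (K : Set V)) :
    ∑ w ∈ K, (y (s + 1) w - x w) ≤ ∑ w ∈ K, (y s w - x w) + 1 := by
  obtain ⟨S, hS, hS'⟩ := h.step s
  have h1 := stable_clique hS hK
  calc ∑ w ∈ K, (y (s + 1) w - x w)
      ≤ ∑ w ∈ K, ((y s w - x w) + (if w ∈ S then 1 else 0)) := by
        apply Finset.sum_le_sum
        intro w _
        rw [hS']; unfold add; omega
    _ = ∑ w ∈ K, (y s w - x w) + ∑ w ∈ K, (if w ∈ S then 1 else 0) := Finset.sum_add_distrib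
    _ ≤ _ := by omega

lemma Opt.clique_steps {G : SimpleGraph V} {R : ℕ → V → ℕ} {a t0 : ℕ} {y : ℕ → V → ℕ}
    (h : Opt G R a t0 y) (s k : ℕ) (x : V → ℕ) {K : Finset V} (hK : G.IsClique (K : Set V)) :
    ∑ w ∈ K, (y (s + k) w - x w) ≤ ∑ w ∈ K, (y s w - x w) + k := by
  induction k with
  | zero => simp
  | succ k ih =>
    have := h.clique_step (s + k) x hK
    rw [show s + (k + 1) = s + k + 1 by ring]
    omega

/-- moving the reference time forward -/
lemma Safe.front {G : SimpleGraph V} {R : ℕ → V → ℕ} {a t0 Λ s t : ℕ} {x : V → ℕ}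
    (h : Safe G R a t0 Λ s t x) {s' : ℕ} (hs : s ≤ s') (hs' : s' ≤ t) :
    Safe G R a t0 Λ s' t x := by
  intro y hy K hK
  have h1 := h y hy K hK
  obtain ⟨k, rfl⟩ := Nat.exists_eq_add_of_le hs
  have h2 := hy.clique_steps s k x hK
  omega

lemma Safe.mono_time {G : SimpleGraph V} {R : ℕ → V → ℕ} {a t0 t1 Λ s t : ℕ} {x : V → ℕ}
    (h : Safe G R a t0 Λ s t x) (h01 : t0 ≤ t1) : Safe G R a t1 Λ s t x :=
  fun y hy => h y (hy.mono_time h01)

/-- certain amount -/
def cc (R : ℕ → V → ℕ) (a s : ℕ) (x : V → ℕ) : V → ℕ := fun w => R (s + 1 - a) w - x w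
/-- possible amount -/
def dd (R : ℕ → V → ℕ) (s : ℕ) (x : V → ℕ) : V → ℕ := fun w => R s w - x w

structure Arr (R : ℕ → V → ℕ) : Prop where
  zero : ∀ w, R 0 w = 0
  mono : ∀ w, Monotone (fun s => R s w)

lemma cc_le {G : SimpleGraph V} {R : ℕ → V → ℕ} (hR : Arr R) {a t0 s : ℕ} {y : ℕ → V → ℕ}
    (hy : Opt G R a t0 y) (ha : 1 ≤ a) (hs : s ≤ t0) (x : V → ℕ) (w : V) :
    cc R a s x w ≤ y s w - x w := by
  unfold cc
  rcases Nat.lt_or_ge s a with h | h
  · have : s + 1 - a = 0 := by omega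
    rw [this, hR.zero]; simp
  · have := hy.ge (s - a) (by omega) w
    rw [show s - a + a = s by omega, show s - a + 1 = s + 1 - a by omega] at this
    omega

lemma le_dd {G : SimpleGraph V} {R : ℕ → V → ℕ} {a t0 s : ℕ} {y : ℕ → V → ℕ}
    (hy : Opt G R a t0 y) (hs : s ≤ t0) (x : V → ℕ) (w : V) :
    y s w - x w ≤ dd R s x w := by
  unfold dd
  have := hy.le s hs w
  omega

lemma cc_le_dd {R : ℕ → V → ℕ} (hR : Arr R) {a s : ℕ} (ha : 1 ≤ a) (x : V → ℕ) (w : V) :
    cc R a s x w ≤ dd R s x w := by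
  unfold cc dd
  have := hR.mono w (show s + 1 - a ≤ s by omega)
  simp only at this
  omega

lemma dd_le_cc {R : ℕ → V → ℕ} (hR : Arr R) {a s : ℕ} (x : V → ℕ) (w : V) :
    dd R s x w ≤ cc R a (s + a) x w := by
  unfold cc dd
  have := hR.mono w (show s ≤ s + a + 1 - a by omega)
  simp only at this
  omega

lemma cc_add {R : ℕ → V → ℕ} {a s : ℕ} (x : V → ℕ) (T : Finset V) :
    cc R a s (add x T) = fun w => cc R a s x w - if w ∈ T then 1 else 0 := by
  funext w; unfold cc add; omega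

lemma dd_le_cc_add {G : SimpleGraph V} {R : ℕ → V → ℕ} (hR : Arr R) {a t0 s : ℕ}
    {y : ℕ → V → ℕ} (hy : Opt G R a t0 y) (ha : 1 ≤ a) (hs : s ≤ t0) (x : V → ℕ) (w : V) :
    dd R s x w ≤ cc R a s x w + 2 * a := by
  unfold cc dd
  rcases Nat.eq_zero_or_pos s with h | h
  · subst h; rw [hR.zero]; omega
  · have h1 := hy.ge (s - 1) (by omega) w
    rw [show s - 1 + 1 = s by omega] at h1
    have h2 := hy.le (s + 1 - a) (by omega) w
    -- y (s-1+a) w ≤ y (s+1-a) w + 2a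
    have hk : G.IsClique (({w} : Finset V) : Set V) := by simp
    have h3 := hy.clique_steps (s + 1 - a) (2 * a) (fun _ => y (s + 1 - a) w) hk
    simp only [Finset.sum_singleton] at h3
    have h4 : y (s - 1 + a) w ≤ y (s + 1 - a + 2 * a) w := hy.mono w (by omega)
    omega

/-- The combinatorial property of a conflict graph that the algorithm needs. -/
def PhaseOK (G : SimpleGraph V) (N : ℕ) : Prop :=
  ∀ u : V, ∃ (T : ℕ → (V → ℕ) → Finset V) (ρ : ℕ → (V → ℕ) → ℕ)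
    (cl : ℕ → (V → ℕ) → (V → ℕ) → Prop),
    (∀ y c, ρ y c ≤ N) ∧
    (∀ y c d c₁, 1 ≤ y → ¬ cl y c d → (∀ w, c w ≤ d w) → (∀ w, d w ≤ c₁ w) →
      ρ y c < ρ y c₁) ∧
    (∀ y c, 1 ≤ y → y + 1 ≤ c u →
      ρ (y + 1) c ≤ ρ y (fun w => c w - if w ∈ T (y + 1) c then 1 else 0)) ∧
    (∀ (y : ℕ) (c d z : V → ℕ) (E : ℕ), 1 ≤ y → cl y c d → (∀ w, c w ≤ z w) → (∀ w, z w ≤ d w) → y ≤ c u →
      (∀ K : Finset V, G.IsClique (K : Set V) → ∑ w ∈ K, z w ≤ E) → 2 * y ≤ E →
      ∀ K : Finset V, G.IsClique (K : Set V) → ∑ w ∈ K, z w = E → ∃ w ∈ K, w ∈ T y c) ∧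
    (∀ y c, 1 ≤ y → y ≤ c u → u ∈ T y c ∧ Stable G (T y c) ∧ ∀ w ∈ T y c, 1 ≤ c w)

/-- one efficient service -/
lemma Safe.serve {G : SimpleGraph V} {R : ℕ → V → ℕ} {a t0 Λ s t : ℕ} {x : V → ℕ}
    (h : Safe G R a t0 Λ s t x) (hst : s ≤ t) (hR : Arr R) (ha : 1 ≤ a) (hs : s ≤ t0)
    (T : Finset V) (hc : ∀ w ∈ T, 1 ≤ cc R a s x w) (hΛ : t + 1 - s ≤ Λ)
    (hT : ∀ z : V → ℕ, (∀ w, cc R a s x w ≤ z w) → (∀ w, z w ≤ dd R s x w) →
      (∀ K : Finset V, G.IsClique (K : Set V) → ∑ w ∈ K, z w ≤ Λ - (t - s)) →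
      ∀ K : Finset V, G.IsClique (K : Set V) → ∑ w ∈ K, z w = Λ - (t - s) → ∃ w ∈ K, w ∈ T) :
    Safe G R a t0 Λ s (t + 1) (add x T) := by
  intro y hy K hK
  have hz1 : ∀ w, cc R a s x w ≤ y s w - x w := fun w => cc_le hR hy ha hs x w
  have hz2 : ∀ w, y s w - x w ≤ dd R s x w := fun w => le_dd hy hs x w
  have hz3 : ∀ K : Finset V, G.IsClique (K : Set V) →
      ∑ w ∈ K, (y s w - x w) ≤ Λ - (t - s) := by
    intro K hK
    have := h y hy K hK
    omega
  have key := hT (fun w => y s w - x w) hz1 hz2 hz3 K hK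
  have hK' := hz3 K hK
  -- new sum
  have hle : ∑ w ∈ K, (y s w - add x T w) ≤ ∑ w ∈ K, (y s w - x w) := by
    apply Finset.sum_le_sum; intro w _
    have := le_add x T w
    omega
  rcases Nat.lt_or_ge (∑ w ∈ K, (y s w - x w)) (Λ - (t - s)) with h1 | h1
  · omega
  · obtain ⟨w, hwK, hwT⟩ := key (by simpa using le_antisymm hK' h1)
    have hlt : ∑ w ∈ K, (y s w - add x T w) < ∑ w ∈ K, (y s w - x w) := by
      apply Finset.sum_lt_sum
      · intro w _
        have := le_add x T w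
        omega
      · refine ⟨w, hwK, ?_⟩
        have h2 := hc w hwT
        have h3 := hz1 w
        simp only [add, hwT, if_true]
        omega
    omega

/-- an idle step -/
lemma Safe.idle {G : SimpleGraph V} {R : ℕ → V → ℕ} {a t0 Λ s t' : ℕ} {x : V → ℕ}
    (hR : Arr R) (ha : 1 ≤ a) (hs : s ≤ t0) (X : ℕ)
    (hc : ∀ w, cc R a s x w ≤ X)
    (hΛ : Fintype.card V * (X + 2 * a) + (t' - s) ≤ Λ) :
    Safe G R a t0 Λ s t' x := by
  intro y hy K hK
  have : ∑ w ∈ K, (y s w - x w) ≤ ∑ w ∈ K, (X + 2 * a) := by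
    apply Finset.sum_le_sum
    intro w _
    have h1 := le_dd hy hs x w
    have h2 := dd_le_cc_add hR hy ha hs x w
    have h3 := hc w
    omega
  rw [Finset.sum_const, smul_eq_mul] at this
  have hK : K.card ≤ Fintype.card V := Finset.card_le_univ K
  have := this.trans (Nat.mul_le_mul_right _ hK)
  omega

/-- A phase: `y` services of the vertex `u`, with at most `N` moves of the reference time. -/
lemma phase_aux {G : SimpleGraph V} {N : ℕ} {R : ℕ → V → ℕ} (hR : Arr R)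
    {a t0 Λ : ℕ} (ha : 1 ≤ a) (u : V)
    (T : ℕ → (V → ℕ) → Finset V) (ρ : ℕ → (V → ℕ) → ℕ) (cl : ℕ → (V → ℕ) → (V → ℕ) → Prop)
    (h1 : ∀ y c, ρ y c ≤ N)
    (h2 : ∀ y c d c₁, 1 ≤ y → ¬ cl y c d → (∀ w, c w ≤ d w) → (∀ w, d w ≤ c₁ w) →
      ρ y c < ρ y c₁)
    (h3 : ∀ y c, 1 ≤ y → y + 1 ≤ c u →
      ρ (y + 1) c ≤ ρ y (fun w => c w - if w ∈ T (y + 1) c then 1 else 0))
    (h4 : ∀ (y : ℕ) (c d z : V → ℕ) (E : ℕ), 1 ≤ y → cl y c d → (∀ w, c w ≤ z w) → (∀ w, z w ≤ d w) → y ≤ c u →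
      (∀ K : Finset V, G.IsClique (K : Set V) → ∑ w ∈ K, z w ≤ E) → 2 * y ≤ E →
      ∀ K : Finset V, G.IsClique (K : Set V) → ∑ w ∈ K, z w = E → ∃ w ∈ K, w ∈ T y c)
    (h5 : ∀ y c, 1 ≤ y → y ≤ c u → u ∈ T y c ∧ Stable G (T y c) ∧ ∀ w ∈ T y c, 1 ≤ c w) :
    ∀ (m y s t : ℕ) (x : V → ℕ), y + (N - ρ y (cc R a s x)) ≤ m →
      s ≤ t → Safe G R a t0 Λ s t x → s + (N - ρ y (cc R a s x)) * a ≤ t0 → t0 ≤ t →
      y ≤ cc R a s x u → (t - s) + 3 * y ≤ Λ →
      ∃ (Ts : List (Finset V)) (s' : ℕ), Ts.length = y ∧ s ≤ s' ∧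
        s' ≤ s + (N - ρ y (cc R a s x)) * a ∧
        PlanOK G (R t0) x Ts ∧ Safe G R a t0 Λ s' (t + y) (exec x Ts) ∧
        exec x Ts u = x u + y := by
  intro m
  induction m with
  | zero =>
    intro y s t x hm hst hS hs hts hu hΛ
    have hy : y = 0 := by omega
    subst hy
    exact ⟨[], s, rfl, le_rfl, by omega, trivial, by simpa [exec] using hS, by simp [exec]⟩
  | succ m ih =>
    intro y s t x hm hst hS hs hts hu hΛ
    rcases Nat.eq_zero_or_pos y with hy | hy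
    · subst hy
      exact ⟨[], s, rfl, le_rfl, by omega, trivial, by simpa [exec] using hS, by simp [exec]⟩
    by_cases hcl : cl y (cc R a s x) (dd R s x)
    · -- serve
      obtain ⟨hu1, hst1, hc1⟩ := h5 y (cc R a s x) hy hu
      set T0 := T y (cc R a s x) with hT0
      have hs0 : s ≤ t0 := le_trans (Nat.le_add_right _ _) hs
      have hnew : Safe G R a t0 Λ s (t + 1) (add x T0) := by
        refine hS.serve hst hR ha hs0 T0 hc1 (by omega) ?_
        intro z hz1 hz2 hz3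
        exact h4 y (cc R a s x) (dd R s x) z (Λ - (t - s)) hy hcl hz1 hz2 hu hz3 (by omega)
      have hcc : cc R a s (add x T0) = fun w => cc R a s x w - if w ∈ T0 then 1 else 0 :=
        cc_add x T0
      obtain ⟨y', rfl⟩ : ∃ y', y = y' + 1 := ⟨y - 1, by omega⟩
      have huT : add x T0 u = x u + 1 := by simp [add, hu1]
      have hav : ∀ w ∈ T0, x w < R t0 w := by
        intro w hw
        have h6 := hc1 w hw
        have h7 := hR.mono w (show s + 1 - a ≤ t0 by omega)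
        simp only [cc] at h6 h7
        omega
      rcases Nat.eq_zero_or_pos y' with h0 | h0
      · subst h0
        refine ⟨[T0], s, rfl, le_rfl, by omega, ⟨hst1, hav, trivial⟩, ?_, ?_⟩
        · simpa [exec] using hnew
        · simpa [exec] using huT
      · have hρ := h3 y' (cc R a s x) h0 hu
        rw [← hT0, ← hcc] at hρ
        have hu' : y' ≤ cc R a s (add x T0) u := by
          rw [hcc]; simp only [hu1, if_true]; omega
        have hmul : (N - ρ y' (cc R a s (add x T0))) * a ≤ (N - ρ (y' + 1) (cc R a s x)) * a :=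
          Nat.mul_le_mul_right _ (by omega)
        obtain ⟨Ts, s', hlen, hs1, hs2, hplan, hsafe, hex⟩ :=
          ih y' s (t + 1) (add x T0) (by omega) (by omega) hnew (by omega) (by omega) hu'
            (by omega)
        refine ⟨T0 :: Ts, s', by simp [hlen], hs1, by omega, ⟨hst1, hav, hplan⟩, ?_, ?_⟩
        · simp only [exec]
          rw [show t + (y' + 1) = t + 1 + y' by ring]
          exact hsafe
        · simp only [exec]
          rw [hex, huT]; ring
    · -- push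
      have hlt : ρ y (cc R a s x) < ρ y (cc R a (s + a) x) :=
        h2 y (cc R a s x) (dd R s x) (cc R a (s + a) x) hy hcl (cc_le_dd hR ha x) (dd_le_cc hR x)
      have hN := h1 y (cc R a (s + a) x)
      have hmul : (N - ρ y (cc R a (s + a) x)) * a + a ≤ (N - ρ y (cc R a s x)) * a := by
        have : N - ρ y (cc R a (s + a) x) + 1 ≤ N - ρ y (cc R a s x) := by omega
        calc (N - ρ y (cc R a (s + a) x)) * a + a
            = (N - ρ y (cc R a (s + a) x) + 1) * a := by ring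
          _ ≤ _ := Nat.mul_le_mul_right _ this
      have hu' : y ≤ cc R a (s + a) x u :=
        hu.trans ((cc_le_dd hR ha x u).trans (dd_le_cc hR x u))
      obtain ⟨Ts, s', hlen, hs1, hs2, hplan, hsafe, hex⟩ :=
        ih y (s + a) t x (by omega) (by omega) (hS.front (by omega) (by omega)) (by omega) hts hu'
          (by omega)
      exact ⟨Ts, s', hlen, by omega, by omega, hplan, hsafe, hex⟩

lemma phase {G : SimpleGraph V} {N : ℕ} (hG : PhaseOK G N) {R : ℕ → V → ℕ} (hR : Arr R)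
    {a t0 Λ : ℕ} (ha : 1 ≤ a) (u : V) (y s t : ℕ) (x : V → ℕ)
    (hst : s ≤ t) (hS : Safe G R a t0 Λ s t x) (hs : s + N * a ≤ t0) (ht : t0 ≤ t)
    (hu : y ≤ cc R a s x u) (hΛ : (t - s) + 3 * y ≤ Λ) :
    ∃ (Ts : List (Finset V)) (s' : ℕ), Ts.length = y ∧ s ≤ s' ∧ s' ≤ s + N * a ∧
      PlanOK G (R t0) x Ts ∧ Safe G R a t0 Λ s' (t + y) (exec x Ts) ∧
      exec x Ts u = x u + y := by
  obtain ⟨T, ρ, cl, h1, h2, h3, h4, h5⟩ := hG u
  have hmul : (N - ρ y (cc R a s x)) * a ≤ N * a := Nat.mul_le_mul_right _ (by omega)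
  obtain ⟨Ts, s', hlen, hs1, hs2, hplan, hsafe, hex⟩ :=
    phase_aux hR ha u T ρ cl h1 h2 h3 h4 h5 _ y s t x le_rfl hst hS (by omega) ht hu hΛ
  exact ⟨Ts, s', hlen, hs1, by omega, hplan, hsafe, hex⟩

end Pool.Agent.H97.Flow
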