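import Mathlib
import Pool.Agent.H97.Flow.Core

set_option linter.unusedSectionVars false
set_option linter.unusedVariables false

namespace Pool.Agent.H97.Flow

open Finset

variable {V : Type} [Fintype V] [DecidableEq V]

open Classical in
/-- the set that is served in the bipartite case -/
noncomputable def bipT (G : SimpleGraph V) (col : V → Bool) (u : V) (y : ℕ) (c : V → ℕ) :
    Finset V :=
  Finset.univ.filter fun w => y ≤ c w ∧ (col w = col u ∨ ∀ p, G.Adj w p → ¬ y ≤ c p)

lemma phaseOK_bip (G : SimpleGraph V) (col : V → Bool) (hcol : ∀ a b, G.Adj a b → col a ≠ col b) :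
    PhaseOK G (Fintype.card V) := by
  classical
  intro u
  refine ⟨bipT G col u, fun y c => (Finset.univ.filter fun w => y ≤ c w).card,
    fun y c d => ∀ w, y ≤ c w ∨ d w < y, ?_, ?_, ?_, ?_, ?_⟩
  · intro y c
    exact Finset.card_le_univ _
  · intro y c d c₁ hy hcl hcd hdc
    push Not at hcl
    obtain ⟨w, hw1, hw2⟩ := hcl
    apply Finset.card_lt_card
    rw [Finset.ssubset_iff_of_subset]
    · refine ⟨w, ?_, ?_⟩
      · simp only [Finset.mem_filter, Finset.mem_univ, true_and]
        exact hw2.trans (hdc w)
      · simp only [Finset.mem_filter, Finset.mem_univ, true_and]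
        omega
    · intro v hv
      simp only [Finset.mem_filter, Finset.mem_univ, true_and] at hv ⊢
      exact hv.trans ((hcd v).trans (hdc v))
  · intro y c hy hu
    apply Finset.card_le_card
    intro v hv
    simp only [Finset.mem_filter, Finset.mem_univ, true_and] at hv ⊢
    split_ifs <;> omega
  · intro y c d z E hy hcl hcz hzd hu hE hyE K hK hKE
    have two : ∀ p q : V, p ≠ q → G.Adj p q → z p + z q ≤ E := by
      intro p q hpq hadj
      have h1 := hE {p, q} (by
        intro a ha b hb hab
        simp only [Finset.coe_insert, Finset.coe_singleton, Set.mem_insert_iff,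
          Set.mem_singleton_iff] at ha hb
        rcases ha with rfl | rfl <;> rcases hb with rfl | rfl
        · exact absurd rfl hab
        · exact hadj
        · exact hadj.symm
        · exact absurd rfl hab)
      rwa [Finset.sum_pair hpq] at h1
    -- at most one vertex of each color
    have hsub : ∀ p ∈ K, ∀ q ∈ K, col p = col q → p = q := by
      intro p hp q hq hpq
      by_contra hne
      exact hcol p q (hK (by simpa using hp) (by simpa using hq) hne) hpq
    have hne : K.Nonempty := by
      rw [Finset.nonempty_iff_ne_empty]
      rintro rfl
      simp at hKE
      omega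
    -- membership in the served set
    have hmem : ∀ w, y ≤ z w → (col w = col u ∨ ∀ p, G.Adj w p → ¬ y ≤ c p) →
        w ∈ bipT G col u y c := by
      intro w hw h
      unfold bipT
      simp only [Finset.mem_filter, Finset.mem_univ, true_and]
      refine ⟨?_, h⟩
      rcases hcl w with h1 | h1
      · exact h1
      · have := hzd w; omega
    by_cases h1 : ∃ p ∈ K, col p = col u
    · obtain ⟨p, hp, hpu⟩ := h1
      by_cases h2 : ∃ q ∈ K, col q ≠ col u
      · obtain ⟨q, hq, hqu⟩ := h2
        have hpq : p ≠ q := by rintro rfl; exact hqu hpu
        have hKpq : K = {p, q} := by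
          ext v
          simp only [Finset.mem_insert, Finset.mem_singleton]
          constructor
          · intro hv
            by_cases hvu : col v = col u
            · exact Or.inl (hsub v hv p hp (hvu.trans hpu.symm))
            · right
              apply hsub v hv q hq
              revert hvu hqu
              cases col v <;> cases col q <;> cases col u <;> simp
          · rintro (rfl | rfl) <;> assumption
        rw [hKpq, Finset.sum_pair hpq] at hKE
        rcases Nat.lt_or_ge (z p) y with h3 | h3
        · refine ⟨q, hq, hmem q (by omega) (Or.inr ?_)⟩
          intro p' hadj hp'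
          have h4 := two q p' hadj.ne hadj
          have h5 := hcz p'
          omega
        · exact ⟨p, hp, hmem p h3 (Or.inl hpu)⟩
      · push Not at h2
        have hKp : K = {p} := by
          ext v
          simp only [Finset.mem_singleton]
          constructor
          · intro hv; exact hsub v hv p hp ((h2 v hv).trans hpu.symm)
          · rintro rfl; exact hp
        rw [hKp, Finset.sum_singleton] at hKE
        exact ⟨p, hp, hmem p (by omega) (Or.inl hpu)⟩
    · push Not at h1
      obtain ⟨q, hq⟩ := hne
      have hKq : K = {q} := by
        ext v
        simp only [Finset.mem_singleton]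
        constructor
        · intro hv
          apply hsub v hv q hq
          have h2 := h1 v hv
          have h3 := h1 q hq
          revert h2 h3
          cases col v <;> cases col q <;> cases col u <;> simp
        · rintro rfl; exact hq
      rw [hKq, Finset.sum_singleton] at hKE
      refine ⟨q, hq, hmem q (by omega) (Or.inr ?_)⟩
      intro p' hadj hp'
      have h4 := two q p' hadj.ne hadj
      have h5 := hcz p'
      omega
  · intro y c hy hu
    refine ⟨?_, ?_, ?_⟩
    · unfold bipT
      exact Finset.mem_filter.2 ⟨Finset.mem_univ _, hu, Or.inl rfl⟩
    · intro a ha b hb hadj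
      unfold bipT at ha hb
      simp only [Finset.mem_filter, Finset.mem_univ, true_and] at ha hb
      have hne := hcol a b hadj
      rcases ha.2 with h1 | h1
      · rcases hb.2 with h2 | h2
        · exact hne (h1.trans h2.symm)
        · exact h2 a hadj.symm ha.1
      · exact h1 b hadj hb.1
    · intro w hw
      unfold bipT at hw
      simp only [Finset.mem_filter, Finset.mem_univ, true_and] at hw
      omega

end Pool.Agent.H97.Flow
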