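import Mathlib

/-!
# On-line scheduling of unit jobs with conflicts: the model

Definitions for MP_806e08_lc. A conflict graph is a simple graph on `Fin v`. Time is `ℕ`.
-/

namespace Pool.Agent.H97.Flow

/-- A job is named by its release time and its position in the list of the jobs released then. -/
abbrev Job := ℕ × ℕ

/-- An instance (job sequence) on `v` vertices, finite or infinite: `I t` is the list of the
vertices of the jobs that are released at time `t`. -/
abbrev Inst (v : ℕ) := ℕ → List (Fin v)

/-- The instance `I` has a job named `j`, and this job sits on the vertex `w`. -/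
def OnVertex {v : ℕ} (I : Inst v) (j : Job) (w : Fin v) : Prop := (I j.1)[j.2]? = some w

/-- `σ` (the start times) is a schedule of the instance `I` with the conflict graph `G`: no job
starts before its release time, and two different jobs that start at the same time sit on
different and nonadjacent vertices. -/
structure IsSchedule {v : ℕ} (G : SimpleGraph (Fin v)) (I : Inst v) (σ : Job → ℕ) : Prop where
  release : ∀ j w, OnVertex I j w → j.1 ≤ σ j
  conflict : ∀ j j' w w', OnVertex I j w → OnVertex I j' w' → j ≠ j' → σ j = σ j' →
    w ≠ w' ∧ ¬ G.Adj w w'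

/-- Some schedule of the instance `I` has all flow times at most `A` (so the optimal maximal flow
time is the least such `A`). -/
def HasFlow {v : ℕ} (G : SimpleGraph (Fin v)) (I : Inst v) (A : ℕ) : Prop :=
  ∃ σ : Job → ℕ, IsSchedule G I σ ∧ ∀ j w, OnVertex I j w → σ j + 1 ≤ j.1 + A

/-- A deterministic on-line algorithm for the conflict graph `G`: `run I t` is the set of the jobs
that it runs at time `t` on the instance `I`. This set depends only on the jobs that are released
at times at most `t`; it consists of released jobs of the instance; no job is run twice; and the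
jobs run at one time sit on different and pairwise nonadjacent vertices. -/
structure OnlineAlg {v : ℕ} (G : SimpleGraph (Fin v)) where
  run : Inst v → ℕ → Set Job
  online : ∀ (I I' : Inst v) (t : ℕ), (∀ s ≤ t, I s = I' s) → run I t = run I' t
  released : ∀ (I : Inst v) (t : ℕ), ∀ j ∈ run I t, j.1 ≤ t ∧ ∃ w, OnVertex I j w
  once : ∀ (I : Inst v) (t t' : ℕ) (j : Job), j ∈ run I t → j ∈ run I t' → t = t'
  conflict : ∀ (I : Inst v) (t : ℕ) (j j' : Job) (w w' : Fin v), j ∈ run I t → j' ∈ run I t →
    OnVertex I j w → OnVertex I j' w' → j ≠ j' → w ≠ w' ∧ ¬ G.Adj w w'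

/-- `G` is an interval graph: the intersection graph of closed intervals of the real line. -/
def IsIntervalGraph {v : ℕ} (G : SimpleGraph (Fin v)) : Prop :=
  ∃ l r : Fin v → ℝ, (∀ w, l w ≤ r w) ∧
    ∀ u w, G.Adj u w ↔ u ≠ w ∧ l u ≤ r w ∧ l w ≤ r u

end Pool.Agent.H97.Flow
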