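import Mathlib
import Pool.Agent.H97.Flow.Core

set_option linter.unusedSectionVars false
set_option linter.unusedVariables false

namespace Pool.Agent.H97.Flow

open Finset

variable {n : ℕ}

/-- the candidates for the next vertex of the chain -/
def cand (F : Finset (Fin n)) (c : Fin n → ℕ) (y : ℕ) : Finset (Fin n) :=
  F.filter fun w => y ≤ ∑ w' ∈ F.filter (fun w' => w ≤ w'), c w'

/-- the largest candidate -/
noncomputable def wst (F : Finset (Fin n)) (c : Fin n → ℕ) (y : ℕ) (a : Fin n) : Fin n :=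
  if h : (cand F c y).Nonempty then (cand F c y).max' h else a

lemma cand_nonempty {F : Finset (Fin n)} {c : Fin n → ℕ} {y : ℕ} (hy : 1 ≤ y)
    (h : y ≤ ∑ w ∈ F, c w) : (cand F c y).Nonempty := by
  have hF : F.Nonempty := by
    rw [Finset.nonempty_iff_ne_empty]; rintro rfl; simp at h; omega
  refine ⟨F.min' hF, ?_⟩
  unfold cand
  rw [Finset.mem_filter]
  refine ⟨Finset.min'_mem _ _, ?_⟩
  have : F.filter (fun w' => F.min' hF ≤ w') = F := by
    apply Finset.filter_true_of_mem
    intro w hw; exact Finset.min'_le _ _ hw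
  rwa [this]

lemma wst_mem_cand {F : Finset (Fin n)} {c : Fin n → ℕ} {y : ℕ} (a : Fin n) (hy : 1 ≤ y)
    (h : y ≤ ∑ w ∈ F, c w) : wst F c y a ∈ cand F c y := by
  unfold wst
  rw [dif_pos (cand_nonempty hy h)]
  exact Finset.max'_mem _ _

lemma wst_mem {F : Finset (Fin n)} {c : Fin n → ℕ} {y : ℕ} (a : Fin n) (hy : 1 ≤ y)
    (h : y ≤ ∑ w ∈ F, c w) : wst F c y a ∈ F := by
  have := wst_mem_cand a hy h
  unfold cand at this
  rw [Finset.mem_filter] at this
  exact this.1

lemma le_wst {F : Finset (Fin n)} {c : Fin n → ℕ} {y : ℕ} (a : Fin n) {w : Fin n}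
    (h : w ∈ cand F c y) : w ≤ wst F c y a := by
  unfold wst
  rw [dif_pos ⟨w, h⟩]
  exact Finset.le_max' _ _ h

lemma wst_sum {F : Finset (Fin n)} {c : Fin n → ℕ} {y : ℕ} (a : Fin n) (hy : 1 ≤ y)
    (h : y ≤ ∑ w ∈ F, c w) : y ≤ ∑ w' ∈ F.filter (fun w' => wst F c y a ≤ w'), c w' := by
  have := wst_mem_cand a hy h
  unfold cand at this
  rw [Finset.mem_filter] at this
  exact this.2

lemma wst_sum_lt {F : Finset (Fin n)} {c : Fin n → ℕ} {y : ℕ} (a : Fin n) (hy : 1 ≤ y)
    (h : y ≤ ∑ w ∈ F, c w) : ∑ w' ∈ F.filter (fun w' => wst F c y a < w'), c w' < y := by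
  by_contra hc
  push Not at hc
  have hne : (F.filter (fun w' => wst F c y a < w')).Nonempty := by
    rw [Finset.nonempty_iff_ne_empty]
    intro h0
    rw [h0] at hc
    simp at hc; omega
  have h1 : (F.filter (fun w' => wst F c y a < w')).min' hne ∈
      F.filter (fun w' => wst F c y a < w') := Finset.min'_mem _ _
  have h2 := Finset.mem_filter.1 h1
  have h3 : F.filter (fun w' => (F.filter (fun w' => wst F c y a < w')).min' hne ≤ w') =
      F.filter (fun w' => wst F c y a < w') := by
    ext w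
    simp only [Finset.mem_filter]
    constructor
    · rintro ⟨hw, hle⟩; exact ⟨hw, h2.2.trans_le hle⟩
    · rintro ⟨hw, hlt⟩
      exact ⟨hw, Finset.min'_le _ _ (Finset.mem_filter.2 ⟨hw, hlt⟩)⟩
  have h4 : (F.filter (fun w' => wst F c y a < w')).min' hne ∈ cand F c y := by
    unfold cand
    rw [Finset.mem_filter]
    refine ⟨h2.1, ?_⟩
    rw [h3]; exact hc
  exact absurd (le_wst a h4) (not_le.2 h2.2)

lemma sum_ge_eq {F : Finset (Fin n)} (c : Fin n → ℕ) {w : Fin n} (hw : w ∈ F) :
    ∑ w' ∈ F.filter (fun w' => w ≤ w'), c w' = c w + ∑ w' ∈ F.filter (fun w' => w < w'), c w' := by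
  have : F.filter (fun w' => w ≤ w') = insert w (F.filter (fun w' => w < w')) := by
    ext v
    simp only [Finset.mem_filter, Finset.mem_insert]
    constructor
    · rintro ⟨h1, h2⟩
      rcases eq_or_lt_of_le h2 with h3 | h3
      · exact Or.inl h3.symm
      · exact Or.inr ⟨h1, h3⟩
    · rintro (rfl | ⟨h1, h2⟩)
      · exact ⟨hw, le_rfl⟩
      · exact ⟨h1, h2.le⟩
  rw [this, Finset.sum_insert]
  simp

/-! ### The chain -/

variable (l r : Fin n → ℝ)

open Classical in
noncomputable def FF (a w : Fin n) : Finset (Fin n) :=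
  Finset.univ.filter fun w' => r a < l w' ∧ l w' ≤ l w ∧ l w ≤ r w'

open Classical in
noncomputable def Suff (a : Fin n) (y : ℕ) (c : Fin n → ℕ) : Finset (Fin n) :=
  Finset.univ.filter fun w => r a < l w ∧ y ≤ ∑ w' ∈ FF l r a w, c w'

open Classical in
noncomputable def ist (a : Fin n) (S : Finset (Fin n)) : Fin n :=
  if h : S.Nonempty then (S.exists_min_image l h).choose else a

lemma ist_spec (a : Fin n) {S : Finset (Fin n)} (h : S.Nonempty) :
    ist l a S ∈ S ∧ ∀ w ∈ S, l (ist l a S) ≤ l w := by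
  unfold ist
  rw [dif_pos h]
  exact (S.exists_min_image l h).choose_spec

noncomputable def Fst (a : Fin n) (y : ℕ) (c : Fin n → ℕ) : Finset (Fin n) :=
  FF l r a (ist l a (Suff l r a y c))

noncomputable def ws (a : Fin n) (y : ℕ) (c : Fin n → ℕ) : Fin n := wst (Fst l r a y c) c y a

noncomputable def ys (a : Fin n) (y : ℕ) (c : Fin n → ℕ) : ℕ :=
  y - ∑ w' ∈ (Fst l r a y c).filter (fun w' => ws l r a y c < w'), c w'

open Classical in
noncomputable def TR : ℕ → Fin n → ℕ → (Fin n → ℕ) → Finset (Fin n)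
  | 0, _, _, _ => ∅
  | k + 1, a, y, c => if (Suff l r a y c).Nonempty then
      insert (ws l r a y c) (TR k (ws l r a y c) (ys l r a y c) c) else ∅

/-- the bounds for the potential -/
def BB (n : ℕ) : ℕ → ℕ
  | 0 => 1
  | k + 1 => (n + 1) * n * BB n k

open Classical in
noncomputable def rho : ℕ → Fin n → ℕ → (Fin n → ℕ) → ℕ
  | 0, _, _, _ => 0
  | k + 1, a, y, c => if (Suff l r a y c).Nonempty then
      (Suff l r a y c).card * (n * BB n k) + (ws l r a y c).val * BB n k +
        rho k (ws l r a y c) (ys l r a y c) c else 0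

def clean : ℕ → Fin n → ℕ → (Fin n → ℕ) → (Fin n → ℕ) → Prop
  | 0, _, _, _, _ => True
  | k + 1, a, y, c, d =>
      (∀ w, r a < l w → y ≤ ∑ w' ∈ FF l r a w, c w' ∨ ∑ w' ∈ FF l r a w, d w' < y) ∧
      ((Suff l r a y c).Nonempty → clean k (ws l r a y c) (ys l r a y c) c d)

lemma mem_FF {a w v : Fin n} : v ∈ FF l r a w ↔ r a < l v ∧ l v ≤ l w ∧ l w ≤ r v := by
  unfold FF; simp

lemma mem_Suff {a w : Fin n} {y : ℕ} {c : Fin n → ℕ} :
    w ∈ Suff l r a y c ↔ r a < l w ∧ y ≤ ∑ w' ∈ FF l r a w, c w' := by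
  unfold Suff; simp

lemma BB_pos (a : Fin n) (k : ℕ) : 1 ≤ BB n k := by
  have hn : 1 ≤ n := by have := a.2; omega
  induction k with
  | zero => simp [BB]
  | succ k ih =>
    unfold BB
    exact Nat.mul_pos (Nat.mul_pos (Nat.succ_pos _) hn) ih

section basic
variable {l r}
variable {a : Fin n} {y : ℕ} {c : Fin n → ℕ}

lemma Fst_sum (h : (Suff l r a y c).Nonempty) : y ≤ ∑ w ∈ Fst l r a y c, c w :=
  ((mem_Suff l r).1 (ist_spec l a h).1).2

lemma ws_mem (hy : 1 ≤ y) (h : (Suff l r a y c).Nonempty) : ws l r a y c ∈ Fst l r a y c :=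
  wst_mem a hy (Fst_sum h)

lemma ws_start (hy : 1 ≤ y) (h : (Suff l r a y c).Nonempty) : r a < l (ws l r a y c) :=
  ((mem_FF l r).1 (ws_mem hy h)).1

lemma ys_pos (hy : 1 ≤ y) (h : (Suff l r a y c).Nonempty) : 1 ≤ ys l r a y c := by
  have := wst_sum_lt a hy (Fst_sum h)
  unfold ys ws
  omega

lemma ys_add (hy : 1 ≤ y) (h : (Suff l r a y c).Nonempty) : ys l r a y c +
    ∑ w' ∈ (Fst l r a y c).filter (fun w' => ws l r a y c < w'), c w' = y := by
  have := wst_sum_lt a hy (Fst_sum h)
  unfold ys ws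
  omega

lemma ys_le (hy : 1 ≤ y) (h : (Suff l r a y c).Nonempty) : ys l r a y c ≤ c (ws l r a y c) := by
  have h1 := wst_sum a hy (Fst_sum h)
  have h2 : wst (Fst l r a y c) c y a ∈ Fst l r a y c := ws_mem hy h
  rw [sum_ge_eq c h2] at h1
  unfold ys
  unfold ws
  omega

lemma rho_lt (k : ℕ) (a : Fin n) (y : ℕ) (c : Fin n → ℕ) : rho l r k a y c < BB n k := by
  induction k generalizing a y with
  | zero => simp [rho, BB]
  | succ k ih =>
    unfold rho
    split_ifs with h
    · have h1 := ih (ws l r a y c) (ys l r a y c)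
      have h2 : (Suff l r a y c).card ≤ n := by
        have := Finset.card_le_univ (Suff l r a y c); simpa using this
      have h3 : (ws l r a y c).val + 1 ≤ n := (ws l r a y c).2
      have h4 : (Suff l r a y c).card * (n * BB n k) ≤ n * (n * BB n k) :=
        Nat.mul_le_mul_right _ h2
      have h5 : ((ws l r a y c).val + 1) * BB n k ≤ n * BB n k := Nat.mul_le_mul_right _ h3
      have h6 : BB n (k + 1) = n * (n * BB n k) + n * BB n k := by
        show (n + 1) * n * BB n k = _
        ring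
      rw [h6]
      rw [Nat.add_mul, Nat.one_mul] at h5
      omega
    · exact BB_pos a _

lemma rho_step {k : ℕ} {a : Fin n} {y y₁ : ℕ} {c c₁ : Fin n → ℕ} {δ : ℕ} (hδ : δ ≤ 1)
    (h1 : Suff l r a y c ⊆ Suff l r a y₁ c₁)
    (h2 : Suff l r a y c = Suff l r a y₁ c₁ → (Suff l r a y c).Nonempty →
      ws l r a y c ≤ ws l r a y₁ c₁)
    (h3 : Suff l r a y c = Suff l r a y₁ c₁ → (Suff l r a y c).Nonempty →
      ws l r a y c = ws l r a y₁ c₁ →
      rho l r k (ws l r a y c) (ys l r a y c) c + δ ≤
        rho l r k (ws l r a y₁ c₁) (ys l r a y₁ c₁) c₁)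
    (h4 : Suff l r a y c = Suff l r a y₁ c₁ → ¬ (Suff l r a y c).Nonempty → δ = 0) :
    rho l r (k + 1) a y c + δ ≤ rho l r (k + 1) a y₁ c₁ := by
  have hB := BB_pos a k
  have hn : 1 ≤ n := by have := a.2; omega
  by_cases hS : Suff l r a y c = Suff l r a y₁ c₁
  · by_cases hne : (Suff l r a y c).Nonempty
    · have hne1 : (Suff l r a y₁ c₁).Nonempty := by rwa [← hS]
      unfold rho
      rw [if_pos hne, if_pos hne1, ← hS]
      rcases eq_or_lt_of_le (h2 hS hne) with h | h
      · have h5 := h3 hS hne h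
        rw [h] at h5 ⊢
        omega
      · have h5 := rho_lt (l := l) (r := r) k (ws l r a y c) (ys l r a y c) c
        have h6 : (ws l r a y c).val + 1 ≤ (ws l r a y₁ c₁).val := h
        have h7 := Nat.mul_le_mul_right (BB n k) h6
        rw [Nat.add_mul, Nat.one_mul] at h7
        omega
    · have hne1 : ¬ (Suff l r a y₁ c₁).Nonempty := by rwa [← hS]
      unfold rho
      rw [if_neg hne, if_neg hne1, h4 hS hne]
  · have hss : Suff l r a y c ⊂ Suff l r a y₁ c₁ := lt_of_le_of_ne h1 hS
    have hcard := Finset.card_lt_card hss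
    have hne1 : (Suff l r a y₁ c₁).Nonempty := by
      rw [← Finset.card_pos]; omega
    have h8 : ((Suff l r a y c).card + 1) * (n * BB n k) ≤
        (Suff l r a y₁ c₁).card * (n * BB n k) := Nat.mul_le_mul_right _ hcard
    rw [Nat.add_mul, Nat.one_mul] at h8
    unfold rho
    rw [if_pos hne1]
    split_ifs with hne
    · have h5 := rho_lt (l := l) (r := r) k (ws l r a y c) (ys l r a y c) c
      have h6 : (ws l r a y c).val + 1 ≤ n := (ws l r a y c).2
      have h7 := Nat.mul_le_mul_right (BB n k) h6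
      rw [Nat.add_mul, Nat.one_mul] at h7
      omega
    · have h9 : 1 ≤ n * BB n k := Nat.mul_pos hn hB
      omega

lemma ws_le {a : Fin n} {y y₁ : ℕ} {c c₁ : Fin n → ℕ}
    (hy : 1 ≤ y) (hS : Suff l r a y c = Suff l r a y₁ c₁) (hne : (Suff l r a y c).Nonempty)
    (h : ∀ w ∈ Fst l r a y c, y ≤ ∑ w' ∈ (Fst l r a y c).filter (fun w' => w ≤ w'), c w' →
      y₁ ≤ ∑ w' ∈ (Fst l r a y c).filter (fun w' => w ≤ w'), c₁ w') :
    ws l r a y c ≤ ws l r a y₁ c₁ := by
  have hF : Fst l r a y₁ c₁ = Fst l r a y c := by unfold Fst; rw [hS]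
  have h1 : ws l r a y c ∈ cand (Fst l r a y₁ c₁) c₁ y₁ := by
    rw [hF]
    unfold cand
    rw [Finset.mem_filter]
    exact ⟨ws_mem hy hne, h _ (ws_mem hy hne) (wst_sum a hy (Fst_sum hne))⟩
  exact le_wst a h1

/-- monotonicity of the potential -/
lemma rho_mono (k : ℕ) : ∀ (a : Fin n) (y y₁ : ℕ) (c c₁ : Fin n → ℕ), 1 ≤ y₁ → y₁ ≤ y →
    (∀ w, c w ≤ c₁ w) → rho l r k a y c ≤ rho l r k a y₁ c₁ := by
  induction k with
  | zero => intro a y y₁ c c₁ _ _ _; simp [rho]
  | succ k ih =>
    intro a y y₁ c c₁ hy1 hyy hcc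
    have hsum : ∀ F : Finset (Fin n), ∑ w ∈ F, c w ≤ ∑ w ∈ F, c₁ w := fun F =>
      Finset.sum_le_sum fun w _ => hcc w
    refine rho_step (δ := 0) (by omega) ?_ ?_ ?_ (fun _ _ => rfl)
    · intro w hw
      rw [mem_Suff] at hw ⊢
      exact ⟨hw.1, hyy.trans (hw.2.trans (hsum _))⟩
    · intro hS hne
      exact ws_le (by omega) hS hne fun w _ h => hyy.trans (h.trans (hsum _))
    · intro hS hne hw
      have hne1 : (Suff l r a y₁ c₁).Nonempty := by rwa [← hS]
      have hF : Fst l r a y₁ c₁ = Fst l r a y c := by unfold Fst; rw [hS]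
      rw [hw]
      refine ih _ _ _ _ _ (ys_pos hy1 hne1) ?_ hcc
      unfold ys
      rw [hF, hw]
      have := hsum ((Fst l r a y c).filter (fun w' => ws l r a y₁ c₁ < w'))
      omega

/-- if the state is not clean then the potential strictly increases -/
lemma rho_strict (k : ℕ) : ∀ (a : Fin n) (y y₁ : ℕ) (c d c₁ : Fin n → ℕ), 1 ≤ y₁ → y₁ ≤ y →
    (∀ w, c w ≤ d w) → (∀ w, d w ≤ c₁ w) → ¬ clean l r k a y c d →
    rho l r k a y c < rho l r k a y₁ c₁ := by
  induction k with
  | zero => intro a y y₁ c d c₁ _ _ _ _ h; exact absurd trivial h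
  | succ k ih =>
    intro a y y₁ c d c₁ hy1 hyy hcd hdc hcl
    have hcc : ∀ w, c w ≤ c₁ w := fun w => (hcd w).trans (hdc w)
    have hsum : ∀ F : Finset (Fin n), ∑ w ∈ F, c w ≤ ∑ w ∈ F, c₁ w := fun F =>
      Finset.sum_le_sum fun w _ => hcc w
    have hsumd : ∀ F : Finset (Fin n), ∑ w ∈ F, d w ≤ ∑ w ∈ F, c₁ w := fun F =>
      Finset.sum_le_sum fun w _ => hdc w
    have hcl' : Suff l r a y c = Suff l r a y₁ c₁ → (Suff l r a y c).Nonempty ∧
        ¬ clean l r k (ws l r a y c) (ys l r a y c) c d := by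
      intro hS
      have h1 : ∀ w, r a < l w → y ≤ ∑ w' ∈ FF l r a w, c w' ∨ ∑ w' ∈ FF l r a w, d w' < y := by
        intro w hw
        by_contra hc
        push Not at hc
        have h2 : w ∈ Suff l r a y₁ c₁ := by
          rw [mem_Suff]; exact ⟨hw, hyy.trans (hc.2.trans (hsumd _))⟩
        rw [← hS, mem_Suff] at h2
        omega
      have h3 : ¬ ((Suff l r a y c).Nonempty → clean l r k (ws l r a y c) (ys l r a y c) c d) :=
        fun h => hcl ⟨h1, h⟩
      push Not at h3
      exact h3
    refine Nat.lt_of_succ_le (rho_step (δ := 1) le_rfl ?_ ?_ ?_ ?_)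
    · intro w hw
      rw [mem_Suff] at hw ⊢
      exact ⟨hw.1, hyy.trans (hw.2.trans (hsum _))⟩
    · intro hS hne
      exact ws_le (by omega) hS hne fun w _ h => hyy.trans (h.trans (hsum _))
    · intro hS hne hw
      have hne1 : (Suff l r a y₁ c₁).Nonempty := by rwa [← hS]
      have hF : Fst l r a y₁ c₁ = Fst l r a y c := by unfold Fst; rw [hS]
      have h5 := (hcl' hS).2
      have hyle : ys l r a y₁ c₁ ≤ ys l r a y c := by
        unfold ys
        rw [hF, hw]
        have := hsum ((Fst l r a y c).filter (fun w' => ws l r a y₁ c₁ < w'))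
        omega
      rw [hw] at h5 ⊢
      exact ih _ _ _ _ _ _ (ys_pos hy1 hne1) hyle hcd hdc h5
    · intro hS hne
      exact absurd (hcl' hS).1 hne

end basic

section graph
variable {l r}
variable {G : SimpleGraph (Fin n)} (hlr : ∀ w, l w ≤ r w)
  (hG : ∀ u w, G.Adj u w ↔ u ≠ w ∧ l u ≤ r w ∧ l w ≤ r u)
include hlr hG

lemma FF_clique (a w : Fin n) : G.IsClique (FF l r a w : Set (Fin n)) := by
  intro v1 h1 v2 h2 hne
  rw [Finset.mem_coe, mem_FF] at h1 h2
  rw [hG]
  exact ⟨hne, h1.2.1.trans h2.2.2, h2.2.1.trans h1.2.2⟩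

lemma sum_sub_stable {T K : Finset (Fin n)} (hT : Stable G T) (hK : G.IsClique (K : Set (Fin n)))
    (c : Fin n → ℕ) :
    ∑ w ∈ K, c w ≤ ∑ w ∈ K, (c w - if w ∈ T then 1 else 0) + 1 := by
  have h1 := stable_clique hT hK
  calc ∑ w ∈ K, c w ≤ ∑ w ∈ K, ((c w - if w ∈ T then 1 else 0) + (if w ∈ T then 1 else 0)) :=
        Finset.sum_le_sum fun w _ => by omega
    _ = ∑ w ∈ K, (c w - if w ∈ T then 1 else 0) + ∑ w ∈ K, (if w ∈ T then 1 else 0) :=
        Finset.sum_add_distrib
    _ ≤ _ := by omega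

/-- the potential does not decrease at a service -/
lemma rho_serve {T : Finset (Fin n)} (hT : Stable G T) (k : ℕ) :
    ∀ (a : Fin n) (y : ℕ) (c : Fin n → ℕ), 1 ≤ y → TR l r k a (y + 1) c ⊆ T →
    rho l r k a (y + 1) c ≤ rho l r k a y (fun w => c w - if w ∈ T then 1 else 0) := by
  induction k with
  | zero => intro a y c _ _; simp [rho]
  | succ k ih =>
    intro a y c hy hTR
    set c₁ : Fin n → ℕ := fun w => c w - if w ∈ T then 1 else 0 with hc₁
    have hsum : ∀ K : Finset (Fin n), G.IsClique (K : Set (Fin n)) →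
        ∑ w ∈ K, c w ≤ ∑ w ∈ K, c₁ w + 1 := fun K hK => sum_sub_stable hlr hG hT hK c
    have hfil : ∀ (K : Finset (Fin n)) (p : Fin n → Prop) [DecidablePred p],
        G.IsClique (K : Set (Fin n)) → G.IsClique ((K.filter p : Finset (Fin n)) : Set (Fin n)) := by
      intro K p _ hK
      exact hK.subset (Finset.coe_subset.2 (Finset.filter_subset _ _))
    refine rho_step (δ := 0) (by omega) ?_ ?_ ?_ (fun _ _ => rfl)
    · intro w hw
      rw [mem_Suff] at hw ⊢
      have := hsum _ (FF_clique hlr hG a w)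
      exact ⟨hw.1, by omega⟩
    · intro hS hne
      refine ws_le (by omega) hS hne fun w _ h => ?_
      have := hsum ((Fst l r a (y + 1) c).filter (fun w' => w ≤ w'))
        (hfil _ _ (FF_clique hlr hG a _))
      omega
    · intro hS hne hw
      have hne1 : (Suff l r a y c₁).Nonempty := by rwa [← hS]
      have hF : Fst l r a y c₁ = Fst l r a (y + 1) c := by unfold Fst; rw [hS]
      unfold TR at hTR
      rw [if_pos hne] at hTR
      have hwT : ws l r a (y + 1) c ∈ T := hTR (Finset.mem_insert_self _ _)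
      have hTR' : TR l r k (ws l r a (y + 1) c) (ys l r a (y + 1) c) c ⊆ T :=
        (Finset.subset_insert _ _).trans hTR
      have hwm := ws_mem (by omega) hne
      have hsame : ∑ w' ∈ (Fst l r a (y + 1) c).filter (fun w' => ws l r a (y + 1) c < w'), c₁ w' =
          ∑ w' ∈ (Fst l r a (y + 1) c).filter (fun w' => ws l r a (y + 1) c < w'), c w' := by
        apply Finset.sum_congr rfl
        intro v hv
        rw [Finset.mem_filter] at hv
        have hvT : v ∉ T := by
          intro hvT
          exact hT _ hwT _ hvT (FF_clique hlr hG a _ (by exact_mod_cast hwm)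
            (by exact_mod_cast hv.1) hv.2.ne)
        simp [hc₁, hvT]
      have h1 := ys_add (by omega : 1 ≤ y + 1) hne
      have h2 := ys_add hy hne1
      have h3 := ys_pos hy hne1
      rw [hF, ← hw, hsame] at h2
      have h4 : ys l r a (y + 1) c = ys l r a y c₁ + 1 := by omega
      rw [h4] at hTR' ⊢
      rw [hw] at hTR' ⊢
      exact ih _ _ _ h3 hTR'

lemma TR_spec (k : ℕ) : ∀ (a : Fin n) (y : ℕ) (c : Fin n → ℕ), 1 ≤ y →
    (∀ w ∈ TR l r k a y c, r a < l w ∧ 1 ≤ c w) ∧ Stable G (TR l r k a y c) := by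
  induction k with
  | zero => intro a y c _; simp [TR, Stable]
  | succ k ih =>
    intro a y c hy
    unfold TR
    split_ifs with hne
    · obtain ⟨h1, h2⟩ := ih (ws l r a y c) (ys l r a y c) c (ys_pos hy hne)
      have hs := ws_start hy hne
      have hlt : ∀ w ∈ TR l r k (ws l r a y c) (ys l r a y c) c,
          ¬ G.Adj (ws l r a y c) w := by
        intro w hw hadj
        rw [hG] at hadj
        exact absurd (h1 w hw).1 (not_lt.2 hadj.2.2)
      refine ⟨?_, ?_⟩
      · intro w hw
        rcases Finset.mem_insert.1 hw with rfl | hw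
        · exact ⟨hs, (ys_pos hy hne).trans (ys_le hy hne)⟩
        · exact ⟨(hs.trans_le (hlr _)).trans (h1 w hw).1, (h1 w hw).2⟩
      · intro v hv w hw
        rcases Finset.mem_insert.1 hv with rfl | hv
        · rcases Finset.mem_insert.1 hw with rfl | hw
          · exact G.loopless.irrefl _
          · exact hlt w hw
        · rcases Finset.mem_insert.1 hw with rfl | hw
          · exact fun h => hlt v hv h.symm
          · exact h2 v hv w hw
    · simp [Stable]

/-- every tight clique to the right is hit -/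
lemma TR_hits {c d z : Fin n → ℕ} {E : ℕ} (hcz : ∀ w, c w ≤ z w) (hzd : ∀ w, z w ≤ d w)
    (hE : ∀ K : Finset (Fin n), G.IsClique (K : Set (Fin n)) → ∑ w ∈ K, z w ≤ E)
    {K : Finset (Fin n)} (hK : G.IsClique (K : Set (Fin n))) (hKE : ∑ w ∈ K, z w = E)
    {w0 : Fin n} (hw0 : w0 ∈ K) (hmax : ∀ w ∈ K, l w ≤ l w0) (k : ℕ) :
    ∀ (a : Fin n) (y : ℕ), 1 ≤ y → y ≤ z a → clean l r k a y c d → r a < l w0 →
      (Finset.univ.filter fun w => r a < l w).card ≤ k → ∃ w ∈ K, w ∈ TR l r k a y c := by
  classical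
  have hKr : ∀ w ∈ K, l w0 ≤ r w := by
    intro w hw
    by_cases h : w = w0
    · rw [h]; exact hlr _
    · have := hK (by exact_mod_cast hw) (by exact_mod_cast hw0) h
      rw [hG] at this
      exact this.2.2
  -- a vertex with positive amount that meets all of the clique is in the clique
  have habs : ∀ v, 1 ≤ z v → (∀ w ∈ K, w ≠ v → G.Adj w v) → v ∈ K := by
    intro v hv hadj
    by_contra hvK
    have h1 := hE (insert v K) (by
      rw [Finset.coe_insert, SimpleGraph.isClique_insert]
      exact ⟨hK, fun w hw hne => (hadj w (by exact_mod_cast hw) hne.symm).symm⟩)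
    rw [Finset.sum_insert hvK] at h1
    omega
  induction k with
  | zero =>
    intro a y _ _ _ hra hcard
    exfalso
    have : w0 ∈ Finset.univ.filter fun w => r a < l w := by simp [hra]
    have := Finset.card_pos.2 ⟨w0, this⟩
    omega
  | succ k ih =>
    intro a y hy hya hcl hra hcard
    have haK : a ∉ K := fun h => absurd (hKr a h) (not_le.2 hra)
    -- the part of the clique that starts after `a`
    have h1 := hE (insert a (K.filter fun w => ¬ (r a < l w))) (by
      rw [Finset.coe_insert, SimpleGraph.isClique_insert]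
      refine ⟨hK.subset (Finset.coe_subset.2 (Finset.filter_subset _ _)), fun w hw hne => ?_⟩
      rw [Finset.mem_coe, Finset.mem_filter] at hw
      rw [hG]
      refine ⟨hne, ?_, not_lt.1 hw.2⟩
      exact (hlr a).trans (hra.le.trans (hKr w hw.1)))
    rw [Finset.sum_insert (by simp [haK])] at h1
    have h2 := Finset.sum_filter_add_sum_filter_not K (fun w => r a < l w) z
    have h3 : ∑ w ∈ K.filter (fun w => r a < l w), z w ≤ ∑ w ∈ FF l r a w0, z w := by
      apply Finset.sum_le_sum_of_subset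
      intro w hw
      rw [Finset.mem_filter] at hw
      rw [mem_FF]
      exact ⟨hw.2, hmax w hw.1, hKr w hw.1⟩
    have h4 : ∑ w ∈ FF l r a w0, z w ≤ ∑ w ∈ FF l r a w0, d w :=
      Finset.sum_le_sum fun w _ => hzd w
    have h5 : w0 ∈ Suff l r a y c := by
      rw [mem_Suff]
      refine ⟨hra, ?_⟩
      rcases hcl.1 w0 hra with h | h
      · exact h
      · omega
    have hne : (Suff l r a y c).Nonempty := ⟨w0, h5⟩
    have h6 := (ist_spec l a hne).2 w0 h5
    have h7 := (mem_FF l r).1 (ws_mem hy hne)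
    have h8 := ys_pos hy hne
    have h9 := ys_le hy hne
    have h10 := hcz (ws l r a y c)
    unfold TR
    rw [if_pos hne]
    rcases lt_or_ge (r (ws l r a y c)) (l w0) with h | h
    · have hcard' : (Finset.univ.filter fun w => r (ws l r a y c) < l w).card <
          (Finset.univ.filter fun w => r a < l w).card := by
        apply Finset.card_lt_card
        rw [Finset.ssubset_iff_of_subset]
        · refine ⟨ws l r a y c, ?_, ?_⟩
          · simp [h7.1]
          · simpa using hlr _
        · intro v hv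
          simp only [Finset.mem_filter, Finset.mem_univ, true_and] at hv ⊢
          exact (h7.1.trans_le (hlr _)).trans hv
      obtain ⟨w, hw1, hw2⟩ := ih (ws l r a y c) (ys l r a y c) h8 (by omega) (hcl.2 hne) h
        (by omega)
      exact ⟨w, hw1, Finset.mem_insert_of_mem hw2⟩
    · refine ⟨ws l r a y c, ?_, Finset.mem_insert_self _ _⟩
      apply habs _ (by omega)
      intro w hw hne'
      rw [hG]
      exact ⟨hne', (hmax w hw).trans h, (h7.2.1.trans h6).trans (hKr w hw)⟩

end graph

section main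
variable {l r : Fin n → ℝ}
variable {G : SimpleGraph (Fin n)} (hlr : ∀ w, l w ≤ r w)
  (hG : ∀ u w, G.Adj u w ↔ u ≠ w ∧ l u ≤ r w ∧ l w ≤ r u)
include hlr hG

lemma refl_lr : ∀ w, (fun w => - r w) w ≤ (fun w => - l w) w := fun w => neg_le_neg (hlr w)

lemma refl_G : ∀ u w, G.Adj u w ↔ u ≠ w ∧ (fun w => - r w) u ≤ (fun w => - l w) w ∧
    (fun w => - r w) w ≤ (fun w => - l w) u := by
  intro u w
  rw [hG]
  constructor
  · rintro ⟨h1, h2, h3⟩
    exact ⟨h1, neg_le_neg h3, neg_le_neg h2⟩
  · rintro ⟨h1, h2, h3⟩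
    exact ⟨h1, neg_le_neg_iff.1 h3, neg_le_neg_iff.1 h2⟩

lemma both_stable (u : Fin n) (y : ℕ) (c : Fin n → ℕ) (hy : 1 ≤ y) :
    Stable G (insert u (TR l r n u y c ∪ TR (fun w => - r w) (fun w => - l w) n u y c)) := by
  obtain ⟨h1, h2⟩ := TR_spec hlr hG n u y c hy
  obtain ⟨h3, h4⟩ := TR_spec (refl_lr hlr hG) (refl_G hlr hG) n u y c hy
  simp only [neg_lt_neg_iff] at h3
  have hR : ∀ w ∈ TR l r n u y c, ¬ G.Adj u w := by
    intro w hw hadj
    rw [hG] at hadj
    exact absurd (h1 w hw).1 (not_lt.2 hadj.2.2)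
  have hL : ∀ w ∈ TR (fun w => - r w) (fun w => - l w) n u y c, ¬ G.Adj u w := by
    intro w hw hadj
    rw [hG] at hadj
    exact absurd (h3 w hw).1 (not_lt.2 hadj.2.1)
  have hRL : ∀ w ∈ TR l r n u y c, ∀ v ∈ TR (fun w => - r w) (fun w => - l w) n u y c,
      ¬ G.Adj w v := by
    intro w hw v hv hadj
    rw [hG] at hadj
    have h5 := (h1 w hw).1
    have h6 := (h3 v hv).1
    have h7 := hlr u
    linarith [hadj.2.1]
  intro v hv w hw
  rcases Finset.mem_insert.1 hv with rfl | hv
  · rcases Finset.mem_insert.1 hw with rfl | hw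
    · exact G.loopless.irrefl _
    · rcases Finset.mem_union.1 hw with hw | hw
      · exact hR w hw
      · exact hL w hw
  · rcases Finset.mem_insert.1 hw with rfl | hw
    · rcases Finset.mem_union.1 hv with hv | hv
      · exact fun h => hR v hv h.symm
      · exact fun h => hL v hv h.symm
    · rcases Finset.mem_union.1 hv with hv | hv
      · rcases Finset.mem_union.1 hw with hw | hw
        · exact h2 v hv w hw
        · exact hRL v hv w hw
      · rcases Finset.mem_union.1 hw with hw | hw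
        · exact fun h => hRL w hw v hv h.symm
        · exact h4 v hv w hw

lemma phaseOK_intv : PhaseOK G (2 * BB n n) := by
  classical
  intro u
  refine ⟨fun y c => insert u (TR l r n u y c ∪ TR (fun w => - r w) (fun w => - l w) n u y c),
    fun y c => rho l r n u y c + rho (fun w => - r w) (fun w => - l w) n u y c,
    fun y c d => clean l r n u y c d ∧ clean (fun w => - r w) (fun w => - l w) n u y c d,
    ?_, ?_, ?_, ?_, ?_⟩
  · intro y c
    have h1 := rho_lt (l := l) (r := r) n u y c
    have h2 := rho_lt (l := fun w => - r w) (r := fun w => - l w) n u y c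
    show rho l r n u y c + rho (fun w => - r w) (fun w => - l w) n u y c ≤ 2 * BB n n
    omega
  · intro y c d c₁ hy hcl hcd hdc
    show rho l r n u y c + rho (fun w => - r w) (fun w => - l w) n u y c <
      rho l r n u y c₁ + rho (fun w => - r w) (fun w => - l w) n u y c₁
    have h1 := rho_mono (l := l) (r := r) n u y y c c₁ hy le_rfl
      (fun w => (hcd w).trans (hdc w))
    have h2 := rho_mono (l := fun w => - r w) (r := fun w => - l w) n u y y c c₁ hy le_rfl
      (fun w => (hcd w).trans (hdc w))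
    by_cases h3 : clean l r n u y c d
    · have h4 : ¬ clean (fun w => - r w) (fun w => - l w) n u y c d := fun h => hcl ⟨h3, h⟩
      have h5 := rho_strict (l := fun w => - r w) (r := fun w => - l w) n u y y c d c₁ hy le_rfl
        hcd hdc h4
      omega
    · have h5 := rho_strict (l := l) (r := r) n u y y c d c₁ hy le_rfl hcd hdc h3
      omega
  · intro y c hy hu
    have hst := both_stable hlr hG u (y + 1) c (by omega)
    have h1 := rho_serve hlr hG hst n u y c hy
      ((Finset.subset_union_left).trans (Finset.subset_insert _ _))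
    have h2 := rho_serve (refl_lr hlr hG) (refl_G hlr hG) hst n u y c hy
      ((Finset.subset_union_right).trans (Finset.subset_insert _ _))
    exact Nat.add_le_add h1 h2
  · intro y c d z E hy hcl hcz hzd hu hE hyE K hK hKE
    have hne : K.Nonempty := by
      rw [Finset.nonempty_iff_ne_empty]
      rintro rfl
      simp at hKE
      omega
    have hzu : 1 ≤ z u := by have := hcz u; omega
    obtain ⟨w0, hw0, hmax⟩ := K.exists_max_image l hne
    obtain ⟨w1, hw1, hmin⟩ := K.exists_min_image r hne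
    have hcard : ∀ p : Fin n → Prop, ∀ _ : DecidablePred p, (Finset.univ.filter p).card ≤ n := by
      intro p _
      have := Finset.card_le_univ (Finset.univ.filter p); simpa using this
    rcases lt_or_ge (r u) (l w0) with h | h
    · obtain ⟨w, h1, h2⟩ := TR_hits hlr hG hcz hzd hE hK hKE hw0 hmax n u y hy
        (hu.trans (hcz u)) hcl.1 h (hcard _ _)
      exact ⟨w, h1, Finset.mem_insert_of_mem (Finset.mem_union_left _ h2)⟩
    · rcases lt_or_ge (r w1) (l u) with h' | h'
      · obtain ⟨w, h1, h2⟩ := TR_hits (refl_lr hlr hG) (refl_G hlr hG) hcz hzd hE hK hKE hw1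
          (fun w hw => neg_le_neg (hmin w hw)) n u y hy
          (hu.trans (hcz u)) hcl.2 (neg_lt_neg h') (hcard _ _)
        exact ⟨w, h1, Finset.mem_insert_of_mem (Finset.mem_union_right _ h2)⟩
      · refine ⟨u, ?_, Finset.mem_insert_self _ _⟩
        by_contra huK
        have h1 := hE (insert u K) (by
          rw [Finset.coe_insert, SimpleGraph.isClique_insert]
          refine ⟨hK, fun w hw hne => ?_⟩
          rw [Finset.mem_coe] at hw
          rw [hG]
          exact ⟨hne, h'.trans (hmin w hw), (hmax w hw).trans h⟩)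
        rw [Finset.sum_insert huK] at h1
        omega
  · intro y c hy hu
    refine ⟨Finset.mem_insert_self _ _, both_stable hlr hG u y c hy, ?_⟩
    intro w hw
    rcases Finset.mem_insert.1 hw with rfl | hw
    · omega
    · rcases Finset.mem_union.1 hw with hw | hw
      · exact ((TR_spec hlr hG n u y c hy).1 w hw).2
      · exact ((TR_spec (refl_lr hlr hG) (refl_G hlr hG) n u y c hy).1 w hw).2

end main

end Pool.Agent.H97.Flow
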