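import Mathlib
import Pool.Agent.H97.Flow.Core

set_option linter.unusedSectionVars false
set_option linter.unusedVariables false

namespace Pool.Agent.H97.Flow

open Finset

variable {V : Type} [Fintype V] [DecidableEq V]

lemma exec_idle (x : V → ℕ) (m : ℕ) : exec x (List.replicate m (∅ : Finset V)) = x := by
  induction m with
  | zero => rfl
  | succ m ih =>
    rw [List.replicate_succ, exec]
    have : add x (∅ : Finset V) = x := by funext w; simp [add]
    rw [this, ih]

lemma planOK_idle (G : SimpleGraph V) (B : V → ℕ) (x : V → ℕ) (m : ℕ) :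
    PlanOK G B x (List.replicate m (∅ : Finset V)) := by
  induction m generalizing x with
  | zero => trivial
  | succ m ih =>
    rw [List.replicate_succ]
    exact ⟨by simp [Stable], by simp, ih _⟩

/-- serve every vertex of a list for one phase -/
lemma part1 {G : SimpleGraph V} {N : ℕ} (hG : PhaseOK G N) {R : ℕ → V → ℕ} (hR : Arr R)
    {a t0 Λ : ℕ} (ha : 1 ≤ a) (X : ℕ) :
    ∀ (us : List V) (s t : ℕ) (x : V → ℕ), s ≤ t → Safe G R a t0 Λ s t x →
      s + us.length * (N * a) ≤ t0 → t0 ≤ t → (t - s) + us.length * X + 3 * X ≤ Λ →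
      ∃ (Ts : List (Finset V)) (s' : ℕ), Ts.length ≤ us.length * X ∧ s ≤ s' ∧
        s' ≤ s + us.length * (N * a) ∧ PlanOK G (R t0) x Ts ∧
        Safe G R a t0 Λ s' (t + Ts.length) (exec x Ts) ∧
        ∀ u ∈ us, min (x u + X) (R (s + 1 - a) u) ≤ exec x Ts u := by
  intro us
  induction us with
  | nil =>
    intro s t x hst hS _ _ _
    exact ⟨[], s, by simp, le_rfl, by simp, trivial, by simpa [exec] using hS, by simp⟩
  | cons u us ih =>
    intro s t x hst hS hs ht hΛ
    simp only [List.length_cons, Nat.add_mul, Nat.one_mul] at hs hΛ ⊢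
    obtain ⟨T1, s1, hl1, h11, h12, hp1, hS1, he1⟩ :=
      phase hG hR ha u (min X (cc R a s x u)) s t x hst hS (by omega) ht (min_le_right _ _)
        (by have := min_le_left X (cc R a s x u); omega)
    have hmin := min_le_left X (cc R a s x u)
    obtain ⟨T2, s2, hl2, h21, h22, hp2, hS2, he2⟩ :=
      ih s1 (t + min X (cc R a s x u)) (exec x T1) (by omega) hS1 (by omega) (by omega)
        (by omega)
    refine ⟨T1 ++ T2, s2, by rw [List.length_append]; omega, by omega, by omega, ?_, ?_, ?_⟩
    · rw [planOK_append]; exact ⟨hp1, hp2⟩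
    · rw [exec_append, List.length_append, hl1, ← Nat.add_assoc]; exact hS2
    · intro w hw
      rw [exec_append]
      rcases List.mem_cons.1 hw with rfl | hw
      · have h3 := le_exec (exec x T1) T2 w
        rw [he1] at h3
        refine le_trans ?_ h3
        unfold cc
        omega
      · have h3 := he2 w hw
        have h4 := le_exec x T1 w
        have h5 := hR.mono w (show s + 1 - a ≤ s1 + 1 - a by omega)
        simp only at h5
        omega

/-- restore the lag -/
lemma part2 {G : SimpleGraph V} {N : ℕ} (hN : 1 ≤ N) (hG : PhaseOK G N) {R : ℕ → V → ℕ}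
    (hR : Arr R) {a t0 Λ : ℕ} (ha : 1 ≤ a) (L' : ℕ)
    (hΛ1 : L' + 3 * (2 * (N * a)) ≤ Λ)
    (hΛ2 : Fintype.card V * (2 * (N * a) + 2 * a) + L' ≤ Λ) :
    ∀ (k s t : ℕ) (x : V → ℕ), s ≤ t → Safe G R a t0 Λ s t x →
      s + k * (N * a) ≤ t0 → t0 ≤ t → L' ≤ (t - s) + k * (N * a) →
      ∃ (Ts : List (Finset V)) (s' : ℕ), Ts.length ≤ k * (2 * (N * a)) + L' ∧ s ≤ s' ∧
        s' ≤ s + k * (N * a) ∧ PlanOK G (R t0) x Ts ∧
        Safe G R a t0 Λ s' (t + Ts.length) (exec x Ts) ∧ L' ≤ t + Ts.length - s' := by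
  intro k
  induction k with
  | zero =>
    intro s t x hst hS _ _ hL
    exact ⟨[], s, by simp, le_rfl, by simp, trivial, by simpa [exec] using hS, by simpa using hL⟩
  | succ k ih =>
    intro s t x hst hS hs ht hL
    simp only [Nat.add_mul, Nat.one_mul] at hs hL ⊢
    rcases Nat.lt_or_ge (t - s) L' with hlt | hge
    · by_cases hbig : ∃ w, 2 * (N * a) ≤ cc R a s x w
      · obtain ⟨w, hw⟩ := hbig
        obtain ⟨T1, s1, hl1, h11, h12, hp1, hS1, he1⟩ :=
          phase hG hR ha w (2 * (N * a)) s t x hst hS (by omega) ht hw (by omega)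
        obtain ⟨T2, s2, hl2, h21, h22, hp2, hS2, hL2⟩ :=
          ih s1 (t + 2 * (N * a)) (exec x T1) (by omega) hS1 (by omega) (by omega) (by omega)
        refine ⟨T1 ++ T2, s2, by rw [List.length_append]; omega, by omega, by omega, ?_, ?_, ?_⟩
        · rw [planOK_append]; exact ⟨hp1, hp2⟩
        · rw [exec_append, List.length_append, hl1, ← Nat.add_assoc]; exact hS2
        · rw [List.length_append, hl1, ← Nat.add_assoc]; exact hL2
      · push Not at hbig
        refine ⟨List.replicate (L' - (t - s)) ∅, s, ?_, le_rfl, by omega, planOK_idle _ _ _ _,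
          ?_, ?_⟩
        · simp only [List.length_replicate]; omega
        · rw [exec_idle, List.length_replicate]
          refine Safe.idle hR ha (by omega) (2 * (N * a)) (fun w => (hbig w).le) ?_
          have : t + (L' - (t - s)) - s = L' := by omega
          rw [this]; exact hΛ2
        · simp only [List.length_replicate]; omega
    · exact ⟨[], s, by simp, le_rfl, by omega, trivial, by simpa [exec] using hS,
        by simpa using hge⟩

/-- A full round. -/
lemma round {G : SimpleGraph V} {N : ℕ} (hN : 1 ≤ N) (hG : PhaseOK G N) {R : ℕ → V → ℕ}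
    (hR : Arr R) {a t0 Λ : ℕ} (ha : 1 ≤ a) (x : V → ℕ)
    (hΛ : (2 * Fintype.card V + 1) * N * a + 2 * Fintype.card V * N * a + 6 * N * a +
      Fintype.card V * (2 * N * a + 2 * a) + 1 ≤ Λ)
    (ht0 : (2 * Fintype.card V + 1) * N * a ≤ t0)
    (hS : Safe G R a t0 Λ (t0 - (2 * Fintype.card V + 1) * N * a) t0 x) :
    ∃ Ts : List (Finset V), 1 ≤ Ts.length ∧
      Ts.length ≤ (2 * Fintype.card V + 1) * 3 * N * a + 1 ∧
      PlanOK G (R t0) x Ts ∧
      Safe G R a t0 Λ (t0 + Ts.length - (2 * Fintype.card V + 1) * N * a) (t0 + Ts.length)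
        (exec x Ts) ∧
      ∀ u, min (x u + 2 * N * a)
        (R (t0 - (2 * Fintype.card V + 1) * N * a + 1 - a) u) ≤ exec x Ts u := by
  set n := Fintype.card V with hn
  set s0 := t0 - (2 * n + 1) * N * a with hs0
  have e1 : (2 * n + 1) * N * a = n * (N * a) + (n + 1) * (N * a) := by ring
  have e2 : 2 * n * N * a = n * (2 * (N * a)) := by ring
  have e3 : 6 * N * a = 3 * (2 * (N * a)) := by ring
  have e4 : n * (2 * N * a + 2 * a) = n * (2 * (N * a) + 2 * a) := by ring
  have e5 : (2 * n + 1) * 3 * N * a = n * (2 * (N * a)) + (n + 1) * (2 * (N * a)) +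
    ((n * (N * a)) + (n + 1) * (N * a)) := by ring
  have hNa : 1 ≤ N * a := Nat.mul_pos hN ha
  have hlen : (Finset.univ : Finset V).toList.length = n := by simp [hn]
  rw [e1] at hs0 ht0
  rw [e1, e2, e3, e4] at hΛ
  have hnn : n * (N * a) + (N * a) ≤ (n + 1) * (N * a) := by
    rw [Nat.add_mul, Nat.one_mul]
  obtain ⟨T1, s1, hl1, h11, h12, hp1, hS1, he1⟩ :=
    part1 hG hR ha (2 * (N * a)) (Finset.univ : Finset V).toList s0 t0 x (by omega) hS
      (by rw [hlen]; omega) le_rfl (by rw [hlen]; omega)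
  rw [hlen] at hl1 h12
  obtain ⟨T2, s2, hl2, h21, h22, hp2, hS2, hL2⟩ :=
    part2 hN hG hR ha (n * (N * a) + (n + 1) * (N * a) + 1) (by omega) (by rw [← hn]; omega) (n + 1) s1
      (t0 + T1.length) (exec x T1) (by omega) hS1 (by omega) (by omega) (by omega)
  have hlenT : (T1 ++ T2).length = T1.length + T2.length := List.length_append
  refine ⟨T1 ++ T2, ?_, ?_, ?_, ?_, ?_⟩
  · rw [hlenT]; omega
  · rw [hlenT, e5]
    have : n * (2 * (N * a)) + (n + 1) * (2 * (N * a)) =
      2 * ((n * (N * a)) + (n + 1) * (N * a)) := by ring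
    omega
  · rw [planOK_append]; exact ⟨hp1, hp2⟩
  · rw [exec_append, hlenT, e1]
    have h := hS2.front (s' := t0 + T1.length + T2.length - (n * (N * a) + (n + 1) * (N * a)))
      (by omega) (by omega)
    rwa [← Nat.add_assoc]
  · intro u
    rw [exec_append]
    have h3 := he1 u (by simp)
    have h4 := le_exec (exec x T1) T2 u
    have e6 : 2 * N * a = 2 * (N * a) := by ring
    rw [e6]
    exact h3.trans h4

end Pool.Agent.H97.Flow
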