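import Mathlib
import Pool.Agent.H97.Flow.Round

set_option linter.unusedSectionVars false
set_option linter.unusedVariables false

namespace Pool.Agent.H97.Flow

open Finset

variable {V : Type} [Fintype V] [DecidableEq V]

/-- what is known about the arrivals at time `t` -/
def trunc (R : ℕ → V → ℕ) (t : ℕ) : ℕ → V → ℕ := fun s => R (min s t)

lemma trunc_of_le (R : ℕ → V → ℕ) {s t : ℕ} (h : s ≤ t) : trunc R t s = R s := by
  simp [trunc, h]

lemma opt_trunc (G : SimpleGraph V) (R : ℕ → V → ℕ) (a t : ℕ) (y : ℕ → V → ℕ) :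
    Opt G (trunc R t) a t y ↔ Opt G R a t y := by
  constructor
  · rintro ⟨h1, h2, h3⟩
    refine ⟨h1, fun s hs w => ?_, fun s hs w => ?_⟩
    · have := h2 s hs w; rwa [trunc_of_le R hs] at this
    · have := h3 s hs w; rwa [trunc_of_le R hs] at this
  · rintro ⟨h1, h2, h3⟩
    refine ⟨h1, fun s hs w => ?_, fun s hs w => ?_⟩
    · have := h2 s hs w; rwa [trunc_of_le R hs]
    · have := h3 s hs w; rwa [trunc_of_le R hs]

lemma safe_trunc (G : SimpleGraph V) (R : ℕ → V → ℕ) (a t0 Λ s t : ℕ) (x : V → ℕ) :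
    Safe G (trunc R t0) a t0 Λ s t x ↔ Safe G R a t0 Λ s t x := by
  unfold Safe
  simp only [opt_trunc]

lemma arr_trunc {R : ℕ → V → ℕ} (hR : Arr R) (t : ℕ) : Arr (trunc R t) := by
  refine ⟨fun w => ?_, fun w => ?_⟩
  · simp [trunc, hR.zero]
  · intro s s' h
    exact hR.mono w (min_le_min_right t h)

/-- the level of the current guess (`2 ^ lev`) -/
noncomputable def lev (G : SimpleGraph V) (R : ℕ → V → ℕ) (t : ℕ) : ℕ :=
  sInf {k | ∃ y, Opt G R (2 ^ k) t y}

/-- the constants -/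
def cL (n N : ℕ) : ℕ := (2 * n + 1) * N
def cD (n N : ℕ) : ℕ := (2 * n + 1) * 3 * N + 1
def cLam (n N : ℕ) : ℕ :=
  ((2 * n + 1) * N + 2 * n * N + 6 * N + n * (2 * N + 2) + 1) + (cD n N + 3 + 2 * cL n N) +
    (2 * cL n N + 2)

/-- what a round achieves -/
def RoundSpec (G : SimpleGraph V) (N : ℕ) (R : ℕ → V → ℕ) (a t : ℕ) (x : V → ℕ)
    (Ts : List (Finset V)) : Prop :=
  1 ≤ Ts.length ∧ Ts.length ≤ cD (Fintype.card V) N * a ∧ PlanOK G (R t) x Ts ∧
  Safe G R a t (cLam (Fintype.card V) N * a) (t + Ts.length - cL (Fintype.card V) N * a)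
    (t + Ts.length) (exec x Ts) ∧
  ∀ u, min (x u + 2 * N * a) (R (t - cL (Fintype.card V) N * a + 1 - a) u) ≤ exec x Ts u

def SafeSt (G : SimpleGraph V) (N : ℕ) (R : ℕ → V → ℕ) (a t : ℕ) (x : V → ℕ) : Prop :=
  cL (Fintype.card V) N * a ≤ t ∧
  Safe G R a t (cLam (Fintype.card V) N * a) (t - cL (Fintype.card V) N * a) t x

lemma exists_round {G : SimpleGraph V} {N : ℕ} (hN : 1 ≤ N) (hG : PhaseOK G N) {R : ℕ → V → ℕ}
    (hR : Arr R) {a t : ℕ} (ha : 1 ≤ a) (x : V → ℕ) (h : SafeSt G N R a t x) :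
    ∃ Ts, RoundSpec G N R a t x Ts := by
  obtain ⟨h1, h2⟩ := h
  have hΛ : (2 * Fintype.card V + 1) * N * a + 2 * Fintype.card V * N * a + 6 * N * a +
      Fintype.card V * (2 * N * a + 2 * a) + 1 ≤ cLam (Fintype.card V) N * a := by
    unfold cLam
    set n := Fintype.card V
    have : (2 * n + 1) * N * a + 2 * n * N * a + 6 * N * a + n * (2 * N * a + 2 * a) + 1 * a ≤
        ((2 * n + 1) * N + 2 * n * N + 6 * N + n * (2 * N + 2) + 1 + (cD n N + 3 + 2 * cL n N) +
          (2 * cL n N + 2)) * a := by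
      have e : (2 * n + 1) * N * a + 2 * n * N * a + 6 * N * a + n * (2 * N * a + 2 * a) + 1 * a
          = ((2 * n + 1) * N + 2 * n * N + 6 * N + n * (2 * N + 2) + 1) * a := by ring
      rw [e]
      exact Nat.mul_le_mul_right _ (by omega)
    omega
  obtain ⟨Ts, h3, h4, h5, h6, h7⟩ := round hN hG hR ha x hΛ h1 h2
  refine ⟨Ts, h3, ?_, h5, h6, h7⟩
  unfold cD
  calc Ts.length ≤ _ := h4
    _ ≤ (2 * Fintype.card V + 1) * 3 * N * a + 1 * a := by omega
    _ = _ := by ring

open Classical in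
/-- the plan chosen at the beginning of a round -/
noncomputable def planG (G : SimpleGraph V) (N : ℕ) (R : ℕ → V → ℕ) (t : ℕ) (x : V → ℕ) :
    List (Finset V) :=
  if h : ∃ Ts, RoundSpec G N R (2 ^ lev G R t) t x Ts ∧ SafeSt G N R (2 ^ lev G R t) t x then
    h.choose
  else List.replicate (cL (Fintype.card V) N * 2 ^ lev G R t) ∅

noncomputable def plan (G : SimpleGraph V) (N : ℕ) (R : ℕ → V → ℕ) (t : ℕ) (x : V → ℕ) :
    List (Finset V) := planG G N (trunc R t) t x

lemma lev_trunc (G : SimpleGraph V) (R : ℕ → V → ℕ) (t : ℕ) : lev G (trunc R t) t = lev G R t := by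
  unfold lev; simp only [opt_trunc]

lemma roundSpec_trunc (G : SimpleGraph V) {N : ℕ} (hN : 1 ≤ N) (R : ℕ → V → ℕ) {a : ℕ}
    (ha : 1 ≤ a) (t : ℕ) (x : V → ℕ)
    (Ts : List (Finset V)) : RoundSpec G N (trunc R t) a t x Ts ↔ RoundSpec G N R a t x Ts := by
  unfold RoundSpec
  rw [trunc_of_le R le_rfl, safe_trunc, trunc_of_le R (by omega : t - cL (Fintype.card V) N * a + 1 - a ≤ t)]

lemma safeSt_trunc (G : SimpleGraph V) {N : ℕ} (R : ℕ → V → ℕ) (a t : ℕ) (x : V → ℕ) :
    SafeSt G N (trunc R t) a t x ↔ SafeSt G N R a t x := by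
  unfold SafeSt; rw [safe_trunc]

lemma plan_safe {G : SimpleGraph V} {N : ℕ} (hN : 1 ≤ N) (hG : PhaseOK G N) {R : ℕ → V → ℕ}
    (hR : Arr R) (t : ℕ) (x : V → ℕ) (h : SafeSt G N R (2 ^ lev G R t) t x) :
    RoundSpec G N R (2 ^ lev G R t) t x (plan G N R t x) := by
  have ha : 1 ≤ 2 ^ lev G R t := Nat.one_le_two_pow
  obtain ⟨Ts, hTs⟩ := exists_round hN hG hR ha x h
  have hex : ∃ Ts, RoundSpec G N (trunc R t) (2 ^ lev G (trunc R t) t) t x Ts ∧
      SafeSt G N (trunc R t) (2 ^ lev G (trunc R t) t) t x := by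
    refine ⟨Ts, ?_, ?_⟩
    · rw [lev_trunc, roundSpec_trunc G hN R ha]; exact hTs
    · rw [lev_trunc, safeSt_trunc]; exact h
  unfold plan planG
  rw [dif_pos hex]
  have key : ∀ P, RoundSpec G N (trunc R t) (2 ^ lev G (trunc R t) t) t x P →
      RoundSpec G N R (2 ^ lev G R t) t x P := by
    intro P hP
    rwa [lev_trunc, roundSpec_trunc G hN R ha] at hP
  exact key _ hex.choose_spec.1

lemma plan_unsafe {G : SimpleGraph V} {N : ℕ} {R : ℕ → V → ℕ}
    (t : ℕ) (x : V → ℕ) (h : ¬ SafeSt G N R (2 ^ lev G R t) t x) :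
    plan G N R t x = List.replicate (cL (Fintype.card V) N * 2 ^ lev G R t) ∅ := by
  unfold plan planG
  rw [dif_neg]
  · rw [lev_trunc]
  · rintro ⟨Ts, _, h2⟩
    rw [lev_trunc, safeSt_trunc] at h2
    exact h h2

lemma planOK_plan {G : SimpleGraph V} {N : ℕ} (hN : 1 ≤ N) (hG : PhaseOK G N) {R : ℕ → V → ℕ}
    (hR : Arr R) (t : ℕ) (x : V → ℕ) :
    PlanOK G (R t) x (plan G N R t x) := by
  by_cases h : SafeSt G N R (2 ^ lev G R t) t x
  · exact (plan_safe hN hG hR t x h).2.2.1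
  · rw [plan_unsafe t x h]; exact planOK_idle _ _ _ _

lemma plan_length_pos {G : SimpleGraph V} {N : ℕ} (hN : 1 ≤ N) (hG : PhaseOK G N)
    {R : ℕ → V → ℕ} (hR : Arr R) (t : ℕ) (x : V → ℕ) :
    1 ≤ (plan G N R t x).length := by
  by_cases h : SafeSt G N R (2 ^ lev G R t) t x
  · exact (plan_safe hN hG hR t x h).1
  · rw [plan_unsafe t x h, List.length_replicate]
    have h1 : 1 ≤ 2 ^ lev G R t := Nat.one_le_two_pow
    have h2 : 1 ≤ cL (Fintype.card V) N := by
      unfold cL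
      exact Nat.mul_pos (by omega) hN
    exact Nat.mul_pos h2 h1

lemma cL_le_cD (n N : ℕ) : cL n N ≤ cD n N := by
  unfold cL cD
  have : (2 * n + 1) * 3 * N = 3 * ((2 * n + 1) * N) := by ring
  omega

lemma plan_length_le {G : SimpleGraph V} {N : ℕ} (hN : 1 ≤ N) (hG : PhaseOK G N)
    {R : ℕ → V → ℕ} (hR : Arr R) (t : ℕ) (x : V → ℕ) :
    (plan G N R t x).length ≤ cD (Fintype.card V) N * 2 ^ lev G R t := by
  by_cases h : SafeSt G N R (2 ^ lev G R t) t x
  · exact (plan_safe hN hG hR t x h).2.1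
  · rw [plan_unsafe t x h, List.length_replicate]
    exact Nat.mul_le_mul_right _ (cL_le_cD _ _)

/-- the state of the algorithm: services so far, and the rest of the current plan -/
abbrev St (V : Type) := (V → ℕ) × List (Finset V)

/-- the current plan, renewed if it is exhausted -/
noncomputable def cur (G : SimpleGraph V) (N : ℕ) (R : ℕ → V → ℕ) (t : ℕ) (σ : St V) :
    List (Finset V) :=
  match σ.2 with
  | [] => plan G N R t σ.1
  | T :: Ts => T :: Ts

noncomputable def serveSt (G : SimpleGraph V) (N : ℕ) (R : ℕ → V → ℕ) (t : ℕ) (σ : St V) :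
    Finset V := (cur G N R t σ).headD ∅

noncomputable def st (G : SimpleGraph V) (N : ℕ) (R : ℕ → V → ℕ) : ℕ → St V
  | 0 => (fun _ => 0, [])
  | t + 1 => (add (st G N R t).1 (serveSt G N R t (st G N R t)),
      (cur G N R t (st G N R t)).tail)

noncomputable def xs (G : SimpleGraph V) (N : ℕ) (R : ℕ → V → ℕ) (t : ℕ) : V → ℕ :=
  (st G N R t).1
noncomputable def serve (G : SimpleGraph V) (N : ℕ) (R : ℕ → V → ℕ) (t : ℕ) : Finset V :=
  serveSt G N R t (st G N R t)

lemma xs_succ (G : SimpleGraph V) (N : ℕ) (R : ℕ → V → ℕ) (t : ℕ) :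
    xs G N R (t + 1) = add (xs G N R t) (serve G N R t) := rfl

lemma planOK_mono {G : SimpleGraph V} {B B' : V → ℕ} (h : ∀ w, B w ≤ B' w) (x : V → ℕ)
    (l : List (Finset V)) (hl : PlanOK G B x l) : PlanOK G B' x l := by
  induction l generalizing x with
  | nil => trivial
  | cons T Ts ih => exact ⟨hl.1, fun w hw => (hl.2.1 w hw).trans_le (h w), ih _ hl.2.2⟩

lemma planOK_cur {G : SimpleGraph V} {N : ℕ} (hN : 1 ≤ N) (hG : PhaseOK G N) {R : ℕ → V → ℕ}
    (hR : Arr R) (t : ℕ) (σ : St V) (h : PlanOK G (R t) σ.1 σ.2) :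
    PlanOK G (R t) σ.1 (cur G N R t σ) := by
  unfold cur
  rcases hσ : σ.2 with _ | ⟨T, Ts⟩
  · exact planOK_plan hN hG hR t σ.1
  · rw [hσ] at h; exact h

lemma planOK_st {G : SimpleGraph V} {N : ℕ} (hN : 1 ≤ N) (hG : PhaseOK G N) {R : ℕ → V → ℕ}
    (hR : Arr R) (t : ℕ) : PlanOK G (R t) (st G N R t).1 (st G N R t).2 := by
  induction t with
  | zero => trivial
  | succ t ih =>
    have h := planOK_cur hN hG hR t _ ih
    simp only [st, serveSt]
    rcases hc : cur G N R t (st G N R t) with _ | ⟨T, Ts⟩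
    · trivial
    · rw [hc] at h
      exact planOK_mono (fun w => hR.mono w (Nat.le_succ t)) _ _ h.2.2

lemma serve_legal {G : SimpleGraph V} {N : ℕ} (hN : 1 ≤ N) (hG : PhaseOK G N) {R : ℕ → V → ℕ}
    (hR : Arr R) (t : ℕ) :
    Stable G (serve G N R t) ∧ ∀ w ∈ serve G N R t, xs G N R t w < R t w := by
  have h := planOK_cur hN hG hR t _ (planOK_st hN hG hR t)
  unfold serve serveSt xs
  rcases hc : cur G N R t (st G N R t) with _ | ⟨T, Ts⟩
  · simp [Stable]
  · rw [hc] at h
    exact ⟨h.1, h.2.1⟩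

lemma st_round (G : SimpleGraph V) (N : ℕ) (R : ℕ → V → ℕ) (t : ℕ) (h : (st G N R t).2 = [])
    (hpos : 1 ≤ (plan G N R t (xs G N R t)).length) :
    ∀ i, i ≤ (plan G N R t (xs G N R t)).length → 1 ≤ i →
      st G N R (t + i) = (exec (xs G N R t) ((plan G N R t (xs G N R t)).take i),
        (plan G N R t (xs G N R t)).drop i) := by
  set P := plan G N R t (xs G N R t) with hP
  intro i
  induction i with
  | zero => intro _ h; omega
  | succ i ih =>
    intro hi _
    rcases Nat.eq_zero_or_pos i with h0 | h0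
    · subst h0
      show st G N R (t + 1) = _
      have hcur : cur G N R t (st G N R t) = P := by
        unfold cur; rw [h]; rfl
      obtain ⟨T, Ts, hPT⟩ : ∃ T Ts, P = T :: Ts := by
        rcases hh : P with _ | ⟨T, Ts⟩
        · rw [hh] at hpos; simp at hpos
        · exact ⟨T, Ts, rfl⟩
      simp only [st, serveSt, hcur]
      rw [hPT]
      simp [exec, xs]
    · have ih' := ih (by omega) h0
      rw [show t + (i + 1) = (t + i) + 1 by ring]
      have hdrop : P.drop i = P[i] :: P.drop (i + 1) := by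
        exact List.drop_eq_getElem_cons (by omega)
      have hcur : cur G N R (t + i) (st G N R (t + i)) = P.drop i := by
        unfold cur; rw [ih', hdrop]
      simp only [st, serveSt, hcur]
      rw [ih']
      simp only [hdrop, List.headD_cons, List.tail_cons]
      congr 1
      have : P.take (i + 1) = P.take i ++ [P[i]] := by
        exact (List.take_concat_get' P i (by omega)).symm
      rw [this, exec_append]
      simp [exec]

lemma st_round_end (G : SimpleGraph V) (N : ℕ) (R : ℕ → V → ℕ) (t : ℕ) (h : (st G N R t).2 = [])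
    (hpos : 1 ≤ (plan G N R t (xs G N R t)).length) :
    st G N R (t + (plan G N R t (xs G N R t)).length) =
      (exec (xs G N R t) (plan G N R t (xs G N R t)), []) := by
  rw [st_round G N R t h hpos _ le_rfl hpos]
  simp

lemma xs_mono (G : SimpleGraph V) (N : ℕ) (R : ℕ → V → ℕ) (w : V) :
    Monotone (fun t => xs G N R t w) := by
  refine monotone_nat_of_le_succ fun t => ?_
  show xs G N R t w ≤ xs G N R (t + 1) w
  rw [xs_succ]; exact le_add _ _ _

end Pool.Agent.H97.Flow
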