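import Mathlib
import Pool.Agent.H97.Flow.Online

set_option linter.unusedSectionVars false
set_option linter.unusedVariables false

namespace Pool.Agent.H97.Flow

open Finset

variable {V : Type} [Fintype V] [DecidableEq V]

/-- the starts of the rounds -/
noncomputable def tau (G : SimpleGraph V) (N : ℕ) (R : ℕ → V → ℕ) : ℕ → ℕ
  | 0 => 0
  | i + 1 => tau G N R i + (plan G N R (tau G N R i) (xs G N R (tau G N R i))).length

lemma backlog_opt {G : SimpleGraph V} {R : ℕ → V → ℕ} (hR : Arr R) {a t t' : ℕ}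
    {y : ℕ → V → ℕ} (hy : Opt G R a t' y) (ha : 1 ≤ a) (htt : t ≤ t') {K : Finset V}
    (hK : G.IsClique (K : Set V)) : ∑ w ∈ K, (R t' w - y t w) ≤ t' - t + a := by
  rcases Nat.eq_zero_or_pos t' with h | h
  · subst h
    have : ∑ w ∈ K, (R 0 w - y t w) = 0 := by
      apply Finset.sum_eq_zero; intro w _; rw [hR.zero]; simp
    omega
  · have h1 := hy.clique_steps t (t' - t + (a - 1)) (y t) hK
    have h2 : ∑ w ∈ K, (y t w - y t w) = 0 := by simp
    rw [h2] at h1
    have h3 : ∑ w ∈ K, (R t' w - y t w) ≤ ∑ w ∈ K, (y (t + (t' - t + (a - 1))) w - y t w) := by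
      apply Finset.sum_le_sum
      intro w _
      have h4 := hy.ge (t' - 1) (by omega) w
      rw [show t' - 1 + 1 = t' by omega, show t' - 1 + a = t + (t' - t + (a - 1)) by omega] at h4
      omega
    omega

lemma backlog_safe {G : SimpleGraph V} {R : ℕ → V → ℕ} (hR : Arr R) {a t s Λ : ℕ} {x : V → ℕ}
    {y : ℕ → V → ℕ} (hy : Opt G R a t y) (ha : 1 ≤ a) (hs : s ≤ t)
    (h : Safe G R a t Λ s t x) {K : Finset V}
    (hK : G.IsClique (K : Set V)) : ∑ w ∈ K, (R t w - x w) ≤ Λ + a := by
  have h1 := h.front hs le_rfl y hy K hK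
  have h2 := backlog_opt hR hy ha le_rfl hK
  have h3 : ∑ w ∈ K, (R t w - x w) ≤ ∑ w ∈ K, ((y t w - x w) + (R t w - y t w)) := by
    apply Finset.sum_le_sum; intro w _; omega
  rw [Finset.sum_add_distrib] at h3
  omega

lemma arrivals_opt {G : SimpleGraph V} {R : ℕ → V → ℕ} (hR : Arr R) {a t t' : ℕ}
    {y : ℕ → V → ℕ} (hy : Opt G R a t' y) (ha : 1 ≤ a) (htt : t ≤ t') {K : Finset V}
    (hK : G.IsClique (K : Set V)) : ∑ w ∈ K, (R t' w - R t w) ≤ t' - t + a := by
  refine le_trans ?_ (backlog_opt hR hy ha htt hK)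
  apply Finset.sum_le_sum
  intro w _
  have := hy.le t htt w
  omega

def PreSt (G : SimpleGraph V) (N : ℕ) (R : ℕ → V → ℕ) (a t : ℕ) (x : V → ℕ) : Prop :=
  ∀ K : Finset V, G.IsClique (K : Set V) →
    ∑ w ∈ K, (R t w - x w) ≤ (cLam (Fintype.card V) N - cL (Fintype.card V) N) * a

section
variable {G : SimpleGraph V} {N : ℕ} (hN : 1 ≤ N) (hG : PhaseOK G N) {R : ℕ → V → ℕ}
  (hR : Arr R)
include hN hG hR

lemma tau_round (i : ℕ) : (st G N R (tau G N R i)).2 = [] := by
  induction i with
  | zero => rfl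
  | succ i ih =>
    simp only [tau]
    rw [st_round_end G N R _ ih (plan_length_pos hN hG hR _ _)]

lemma xs_tau_succ (i : ℕ) : xs G N R (tau G N R (i + 1)) =
    exec (xs G N R (tau G N R i)) (plan G N R (tau G N R i) (xs G N R (tau G N R i))) := by
  simp only [tau]
  have := st_round_end G N R _ (tau_round hN hG hR i) (plan_length_pos hN hG hR _ _)
  conv_lhs => rw [xs, this]

lemma tau_lt (i : ℕ) : tau G N R i < tau G N R (i + 1) := by
  have := plan_length_pos hN hG hR (tau G N R i) (xs G N R (tau G N R i))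
  simp only [tau]; omega

lemma tau_strictMono : StrictMono (tau G N R) := strictMono_nat_of_lt_succ (tau_lt hN hG hR)

lemma tau_succ_le (i : ℕ) : tau G N R (i + 1) ≤
    tau G N R i + cD (Fintype.card V) N * 2 ^ lev G R (tau G N R i) := by
  simp only [tau]
  exact Nat.add_le_add_left (plan_length_le hN hG hR _ _) _

end

lemma lev_le {G : SimpleGraph V} {R : ℕ → V → ℕ} {A t : ℕ} {y : ℕ → V → ℕ}
    (hy : Opt G R A t y) : lev G R t ≤ Nat.clog 2 A :=
  Nat.sInf_le ⟨y, hy.mono_a (Nat.le_pow_clog (by norm_num) A)⟩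

lemma lev_mem {G : SimpleGraph V} {R : ℕ → V → ℕ} {A t : ℕ} {y : ℕ → V → ℕ}
    (hy : Opt G R A t y) : ∃ y', Opt G R (2 ^ lev G R t) t y' :=
  Nat.sInf_mem (s := {k | ∃ y, Opt G R (2 ^ k) t y})
    ⟨Nat.clog 2 A, y, hy.mono_a (Nat.le_pow_clog (by norm_num) A)⟩

lemma lev_mono {G : SimpleGraph V} {R : ℕ → V → ℕ} {A t t' : ℕ} {y : ℕ → V → ℕ}
    (hy : Opt G R A t' y) (h : t ≤ t') : lev G R t ≤ lev G R t' := by
  obtain ⟨y', hy'⟩ := lev_mem hy
  exact Nat.sInf_le ⟨y', hy'.mono_time h⟩

lemma cst1 (n N : ℕ) : cL n N ≤ cLam n N - cL n N := by unfold cLam; omega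
lemma cst2 (n N : ℕ) : cL n N ≤ cLam n N := by unfold cLam; omega
lemma cst3 (n N : ℕ) : cLam n N + cD n N + 3 ≤ 2 * (cLam n N - cL n N) := by
  unfold cLam; omega
lemma cst4 (n N : ℕ) : cL n N + 2 ≤ cLam n N - cL n N := by unfold cLam; omega

section
variable {G : SimpleGraph V} {N : ℕ} (hN : 1 ≤ N) (hG : PhaseOK G N) {R : ℕ → V → ℕ}
  (hR : Arr R) {A : ℕ} {y : ℕ → V → ℕ} (hy : ∀ t, Opt G R A t y)
include hN hG hR hy

lemma two_pow_lt {k l : ℕ} (h : k < l) : 2 * 2 ^ k ≤ 2 ^ l := by
  calc 2 * 2 ^ k = 2 ^ (k + 1) := by ring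
    _ ≤ 2 ^ l := Nat.pow_le_pow_right (by norm_num) h

/-- one step of the invariant -/
lemma inv_step (i : ℕ)
    (h : SafeSt G N R (2 ^ lev G R (tau G N R i)) (tau G N R i) (xs G N R (tau G N R i)) ∨
      PreSt G N R (2 ^ lev G R (tau G N R i)) (tau G N R i) (xs G N R (tau G N R i))) :
    (lev G R (tau G N R (i + 1)) = lev G R (tau G N R i) →
      SafeSt G N R (2 ^ lev G R (tau G N R (i + 1))) (tau G N R (i + 1))
        (xs G N R (tau G N R (i + 1)))) ∧
    (lev G R (tau G N R i) < lev G R (tau G N R (i + 1)) →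
      PreSt G N R (2 ^ lev G R (tau G N R (i + 1))) (tau G N R (i + 1))
        (xs G N R (tau G N R (i + 1)))) := by
  set t := tau G N R i with ht
  set a := 2 ^ lev G R t with ha
  have ha1 : 1 ≤ a := Nat.one_le_two_pow
  set x := xs G N R t with hx
  have hxs : xs G N R (tau G N R (i + 1)) = exec x (plan G N R t x) := xs_tau_succ hN hG hR i
  have htau : tau G N R (i + 1) = t + (plan G N R t x).length := rfl
  set t' := tau G N R (i + 1) with ht'
  set n := Fintype.card V with hn
  have hlt : t ≤ t' := by omega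
  have hex : ∀ w, x w ≤ exec x (plan G N R t x) w := fun w => le_exec _ _ w
  -- the bound on the backlog at the new round start
  have hback : lev G R t < lev G R t' → ∀ b, (∀ K : Finset V, G.IsClique (K : Set V) →
      ∑ w ∈ K, (R t w - x w) ≤ b) → ∀ K : Finset V, G.IsClique (K : Set V) →
      ∑ w ∈ K, (R t' w - exec x (plan G N R t x) w) ≤ b + (t' - t) + 2 ^ lev G R t' := by
    intro _ b hb K hK
    obtain ⟨y', hy'⟩ := lev_mem (hy t')
    have h1 := arrivals_opt hR hy' Nat.one_le_two_pow hlt hK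
    have h2 := hb K hK
    have h3 : ∑ w ∈ K, (R t' w - exec x (plan G N R t x) w) ≤
        ∑ w ∈ K, ((R t w - x w) + (R t' w - R t w)) := by
      apply Finset.sum_le_sum; intro w _
      have := hex w
      omega
    rw [Finset.sum_add_distrib] at h3
    omega
  by_cases hsafe : SafeSt G N R a t x
  · have hspec := plan_safe hN hG hR t x hsafe
    rw [← ha] at hspec
    obtain ⟨s1, s2, s3, s4, s5⟩ := hspec
    rw [← hn] at s2
    constructor
    · intro heq
      rw [heq, hxs, ← ha]
      refine ⟨?_, ?_⟩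
      · have := hsafe.1; omega
      · rw [htau]; exact s4.mono_time (by omega)
    · intro hlev
      rw [hxs]
      intro K hK
      obtain ⟨y', hy'⟩ := lev_mem (hy t)
      have hb : ∀ K : Finset V, G.IsClique (K : Set V) →
          ∑ w ∈ K, (R t w - x w) ≤ cLam n N * a + a := by
        intro K hK
        exact backlog_safe hR hy' ha1 (by omega) hsafe.2 hK
      have h1 := hback hlev _ hb K hK
      have h2 := two_pow_lt hN hG hR hy hlev
      rw [← ha] at h2
      have h3 : t' - t ≤ cD n N * a := by omega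
      have h4 := cst3 n N
      set b := 2 ^ lev G R t' with hb'
      refine h1.trans ?_
      rw [← hn]
      have h5 : cLam n N * a + a + (t' - t) + b ≤ (cLam n N + cD n N + 1) * a + b := by
        have : (cLam n N + cD n N + 1) * a = cLam n N * a + cD n N * a + a := by ring
        omega
      refine h5.trans ?_
      have h6 : 2 * ((cLam n N + cD n N + 1) * a + b) ≤ 2 * ((cLam n N - cL n N) * b) := by
        calc 2 * ((cLam n N + cD n N + 1) * a + b)
            = (cLam n N + cD n N + 1) * (2 * a) + 2 * b := by ring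
          _ ≤ (cLam n N + cD n N + 1) * b + 2 * b :=
              Nat.add_le_add_right (Nat.mul_le_mul_left _ h2) _
          _ = (cLam n N + cD n N + 3) * b := by ring
          _ ≤ (2 * (cLam n N - cL n N)) * b := Nat.mul_le_mul_right _ h4
          _ = _ := by ring
      omega
  · have hpre : PreSt G N R a t x := h.resolve_left hsafe
    have hplan := plan_unsafe t x hsafe
    rw [← ha, ← hn] at hplan
    have hex' : exec x (plan G N R t x) = x := by rw [hplan, exec_idle]
    have htau' : t' = t + cL n N * a := by rw [htau, hplan, List.length_replicate]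
    constructor
    · intro heq
      rw [heq, hxs, ← ha, hex']
      refine ⟨by rw [← hn]; omega, ?_⟩
      rw [← hn]
      intro y' hy' K hK
      have h1 := hpre K hK
      have h2 : ∑ w ∈ K, (y' (t' - cL n N * a) w - x w) ≤ ∑ w ∈ K, (R t w - x w) := by
        apply Finset.sum_le_sum; intro w _
        have h3 := hy'.le t (by omega) w
        rw [show t' - cL n N * a = t by omega]
        omega
      have h4 := cst2 n N
      have h5 : (cLam n N - cL n N) * a + cL n N * a = cLam n N * a := by
        rw [← Nat.add_mul]; congr 1; omega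
      rw [← hn] at h1
      have h6 : t' - (t' - cL n N * a) = cL n N * a := by omega
      show ∑ w ∈ K, (y' (t' - cL n N * a) w - x w) + (t' - (t' - cL n N * a)) ≤ cLam n N * a
      rw [h6]
      omega
    · intro hlev
      rw [hxs]
      intro K hK
      have h1 := hback hlev _ hpre K hK
      have h2 := two_pow_lt hN hG hR hy hlev
      rw [← ha] at h2
      have h4 := cst4 n N
      have h4' := cst1 n N
      set b := 2 ^ lev G R t' with hb'
      refine h1.trans ?_
      rw [← hn]
      have h3 : t' - t = cL n N * a := by omega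
      rw [h3]
      have h6 : 2 * ((cLam n N - cL n N) * a + cL n N * a + b) ≤ 2 * ((cLam n N - cL n N) * b) := by
        calc 2 * ((cLam n N - cL n N) * a + cL n N * a + b)
            = ((cLam n N - cL n N) + cL n N) * (2 * a) + 2 * b := by ring
          _ ≤ ((cLam n N - cL n N) + cL n N) * b + 2 * b :=
              Nat.add_le_add_right (Nat.mul_le_mul_left _ h2) _
          _ = ((cLam n N - cL n N) + (cL n N + 2)) * b := by ring
          _ ≤ ((cLam n N - cL n N) + (cLam n N - cL n N)) * b :=
              Nat.mul_le_mul_right _ (by omega)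
          _ = _ := by ring
      omega

lemma inv_all (i : ℕ) :
    SafeSt G N R (2 ^ lev G R (tau G N R i)) (tau G N R i) (xs G N R (tau G N R i)) ∨
      PreSt G N R (2 ^ lev G R (tau G N R i)) (tau G N R i) (xs G N R (tau G N R i)) := by
  induction i with
  | zero =>
    right
    intro K _
    have : ∑ w ∈ K, (R (tau G N R 0) w - xs G N R (tau G N R 0) w) = 0 := by
      apply Finset.sum_eq_zero; intro w _
      simp only [tau, hR.zero]; simp
    omega
  | succ i ih =>
    have h := inv_step hN hG hR hy i ih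
    rcases Nat.lt_or_ge (lev G R (tau G N R i)) (lev G R (tau G N R (i + 1))) with h1 | h1
    · right; exact h.2 h1
    · left
      apply h.1
      exact le_antisymm h1 (lev_mono (hy _) (tau_lt hN hG hR i).le)

lemma safe_succ (i : ℕ) (h : lev G R (tau G N R (i + 1)) = lev G R (tau G N R i)) :
    SafeSt G N R (2 ^ lev G R (tau G N R (i + 1))) (tau G N R (i + 1))
        (xs G N R (tau G N R (i + 1))) :=
  (inv_step hN hG hR hy i (inv_all hN hG hR hy i)).1 h

/-- the length of an epoch -/
def cF (n N : ℕ) : ℕ := (cL n N + 1) + cD n N + (cLam n N + 1) * cD n N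

/-- either the level rises soon, or all the jobs released by `r` at `w` are done soon -/
lemma epoch (r : ℕ) (w : V) (i : ℕ) (hi : r ≤ tau G N R i) :
    (∃ j, i < j ∧ lev G R (tau G N R i) < lev G R (tau G N R j) ∧
      tau G N R j ≤ tau G N R i + cF (Fintype.card V) N * 2 ^ lev G R (tau G N R i)) ∨
    R (r + 1) w ≤ xs G N R (tau G N R i + cF (Fintype.card V) N * 2 ^ lev G R (tau G N R i)) w := by
  obtain ⟨n, hn⟩ : ∃ n, n = Fintype.card V := ⟨_, rfl⟩
  rw [← hn]
  by_cases hcase : ∃ j, i < j ∧ lev G R (tau G N R i) < lev G R (tau G N R j) ∧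
      tau G N R j ≤ tau G N R i + cF n N * 2 ^ lev G R (tau G N R i)
  · exact Or.inl hcase
  right
  push Not at hcase
  obtain ⟨a, ha⟩ : ∃ a, a = 2 ^ lev G R (tau G N R i) := ⟨_, rfl⟩
  have ha1 : 1 ≤ a := by rw [ha]; exact Nat.one_le_two_pow
  rw [← ha] at hcase ⊢
  have hmono := tau_strictMono hN hG hR
  -- the level is constant during the epoch
  have hlev : ∀ j, i ≤ j → tau G N R j ≤ tau G N R i + cF n N * a →
      lev G R (tau G N R j) = lev G R (tau G N R i) := by
    intro j hij hj
    rcases Nat.eq_or_lt_of_le hij with h | h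
    · rw [h]
    · refine le_antisymm ?_ (lev_mono (hy _) (hmono.monotone hij))
      by_contra hc
      have := hcase j h (by omega)
      omega
  have hlen : ∀ j, i ≤ j → tau G N R j ≤ tau G N R i + cF n N * a →
      tau G N R (j + 1) ≤ tau G N R j + cD n N * a := by
    intro j hij hj
    have h1 := tau_succ_le hN hG hR j
    rwa [hlev j hij hj, ← ha, ← hn] at h1
  have hsafe : ∀ j, i < j → tau G N R j ≤ tau G N R i + cF n N * a →
      SafeSt G N R a (tau G N R j) (xs G N R (tau G N R j)) := by
    intro j hij hj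
    obtain ⟨k, rfl⟩ : ∃ k, j = k + 1 := ⟨j - 1, by omega⟩
    have h1 := hmono (Nat.lt_succ_self k)
    have h2 := hlev k (by omega) (by simp only [Nat.succ_eq_add_one] at h1; omega)
    have h3 := hlev (k + 1) (by omega) hj
    have h4 := safe_succ hN hG hR hy k (by rw [h2, h3])
    rwa [h3, ← ha] at h4
  have hex : ∃ j, tau G N R i + (cL n N + 1) * a ≤ tau G N R j :=
    ⟨tau G N R i + (cL n N + 1) * a, hmono.le_apply⟩
  classical
  obtain ⟨j0, hj0⟩ : ∃ j0, j0 = Nat.find hex := ⟨_, rfl⟩
  have hj1 : tau G N R i + (cL n N + 1) * a ≤ tau G N R j0 := by rw [hj0]; exact Nat.find_spec hex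
  have hj2 : ∀ j, j < j0 → tau G N R j < tau G N R i + (cL n N + 1) * a := by
    intro j hj
    rw [hj0] at hj
    exact not_le.1 (Nat.find_min hex hj)
  have hLa : 1 ≤ (cL n N + 1) * a := Nat.mul_pos (Nat.succ_pos _) ha1
  have hij0 : i < j0 := by
    by_contra hc
    have := hmono.monotone (not_lt.1 hc)
    omega
  have hFa : cF n N * a = (cL n N + 1) * a + cD n N * a + (cLam n N + 1) * (cD n N * a) := by
    unfold cF; ring
  have hj3 : tau G N R j0 ≤ tau G N R i + (cL n N + 1) * a + cD n N * a := by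
    obtain ⟨k, rfl⟩ : ∃ k, j0 = k + 1 := ⟨j0 - 1, by omega⟩
    have h1 := hj2 k (Nat.lt_succ_self k)
    have h2 := hlen k (by omega) (by omega)
    omega
  have key : ∀ m, m ≤ cLam n N + 1 →
      tau G N R (j0 + m) ≤ tau G N R i + (cL n N + 1) * a + cD n N * a + m * (cD n N * a) ∧
      R (r + 1) w - xs G N R (tau G N R (j0 + m)) w ≤ (cLam n N + 1 - m) * a := by
    intro m
    induction m with
    | zero =>
      intro _
      refine ⟨by simpa using hj3, ?_⟩
      simp only [Nat.add_zero, Nat.sub_zero]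
      have h1 := hsafe j0 hij0 (by omega)
      obtain ⟨y', hy'⟩ := lev_mem (hy (tau G N R j0))
      rw [hlev j0 hij0.le (by omega), ← ha] at hy'
      have h2 := backlog_safe hR hy' ha1 (Nat.sub_le _ _) h1.2 (K := {w}) (by simp)
      simp only [Finset.sum_singleton] at h2
      rw [← hn] at h2
      have h3 := hR.mono w (show r + 1 ≤ tau G N R j0 by omega)
      simp only at h3
      have h4 : (cLam n N + 1) * a = cLam n N * a + a := by ring
      omega
    | succ m ih =>
      intro hm
      obtain ⟨ih1, ih2⟩ := ih (by omega)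
      have hle : m * (cD n N * a) + cD n N * a ≤ (cLam n N + 1) * (cD n N * a) := by
        calc m * (cD n N * a) + cD n N * a = (m + 1) * (cD n N * a) := by ring
          _ ≤ _ := Nat.mul_le_mul_right _ hm
      have hbd : tau G N R (j0 + m) ≤ tau G N R i + cF n N * a := by omega
      have h1 := hlen (j0 + m) (by omega) hbd
      have h2 := hsafe (j0 + m) (by omega) hbd
      have h3 := hlev (j0 + m) (by omega) hbd
      have hmul : (m + 1) * (cD n N * a) = m * (cD n N * a) + cD n N * a := by ring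
      refine ⟨?_, ?_⟩
      · rw [← Nat.add_assoc, hmul]; omega
      · have hspec := plan_safe hN hG hR (tau G N R (j0 + m)) (xs G N R (tau G N R (j0 + m)))
          (by rw [h3, ← ha]; exact h2)
        have h5 := hspec.2.2.2.2 w
        rw [← xs_tau_succ hN hG hR (j0 + m), h3, ← ha, ← hn] at h5
        have h6 : tau G N R j0 ≤ tau G N R (j0 + m) := hmono.monotone (by omega)
        have h7 : (cL n N + 1) * a = cL n N * a + a := by ring
        have h8 := hR.mono w (show r + 1 ≤ tau G N R (j0 + m) - cL n N * a + 1 - a by omega)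
        simp only at h8
        have h9 : a ≤ 2 * N * a := by
          calc a = 1 * a := (Nat.one_mul a).symm
            _ ≤ _ := Nat.mul_le_mul_right _ (by omega)
        rw [show j0 + (m + 1) = j0 + m + 1 by ring]
        have h10 : (cLam n N + 1 - m) * a = (cLam n N + 1 - (m + 1)) * a + a := by
          rw [show cLam n N + 1 - m = (cLam n N + 1 - (m + 1)) + 1 by omega]; ring
        omega
  obtain ⟨k1, k2⟩ := key (cLam n N + 1) le_rfl
  simp only [Nat.sub_self, Nat.zero_mul, Nat.le_zero] at k2
  have k3 := xs_mono G N R w (show tau G N R (j0 + (cLam n N + 1)) ≤ tau G N R i + cF n N * a by omega)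
  simp only at k3
  omega

lemma epochs (hA : 1 ≤ A) (r : ℕ) (w : V) : ∀ (m i : ℕ), r ≤ tau G N R i →
    Nat.clog 2 A ≤ lev G R (tau G N R i) + m →
    R (r + 1) w ≤ xs G N R (tau G N R i + cF (Fintype.card V) N *
      (2 ^ (Nat.clog 2 A + 1) - 2 ^ lev G R (tau G N R i))) w := by
  intro m
  induction m with
  | zero =>
    intro i hi hm
    have h1 := lev_le (hy (tau G N R i))
    have h2 : lev G R (tau G N R i) = Nat.clog 2 A := by omega
    rcases epoch hN hG hR hy r w i hi with ⟨j, _, hj, _⟩ | h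
    · have := lev_le (hy (tau G N R j)); omega
    · rw [h2] at h ⊢
      have : 2 ^ (Nat.clog 2 A + 1) - 2 ^ Nat.clog 2 A = 2 ^ Nat.clog 2 A := by
        rw [pow_succ]; omega
      rwa [this]
  | succ m ih =>
    intro i hi hm
    have h1 := lev_le (hy (tau G N R i))
    have h0 : 2 * 2 ^ lev G R (tau G N R i) ≤ 2 ^ (Nat.clog 2 A + 1) :=
      two_pow_lt hN hG hR hy (by omega)
    rcases epoch hN hG hR hy r w i hi with ⟨j, hij, hj, hj2⟩ | h
    · have h3 := ih j (hi.trans ((tau_strictMono hN hG hR).monotone hij.le)) (by omega)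
      have h4 := lev_le (hy (tau G N R j))
      refine h3.trans (xs_mono G N R w ?_)
      have h5 := two_pow_lt hN hG hR hy hj
      have h6 : 2 ^ lev G R (tau G N R j) ≤ 2 ^ (Nat.clog 2 A + 1) :=
        Nat.pow_le_pow_right (by norm_num) (by omega)
      calc tau G N R j + cF (Fintype.card V) N *
            (2 ^ (Nat.clog 2 A + 1) - 2 ^ lev G R (tau G N R j))
          ≤ tau G N R i + cF (Fintype.card V) N * 2 ^ lev G R (tau G N R i) +
            cF (Fintype.card V) N * (2 ^ (Nat.clog 2 A + 1) - 2 ^ lev G R (tau G N R j)) := by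
            omega
        _ = tau G N R i + cF (Fintype.card V) N * (2 ^ lev G R (tau G N R i) +
            (2 ^ (Nat.clog 2 A + 1) - 2 ^ lev G R (tau G N R j))) := by ring
        _ ≤ _ := Nat.add_le_add_left (Nat.mul_le_mul_left _ (by omega)) _
    · refine h.trans (xs_mono G N R w ?_)
      exact Nat.add_le_add_left (Nat.mul_le_mul_left _ (by omega)) _

/-- the final constant -/
def cFin (n N : ℕ) : ℕ := 2 * cD n N + 4 * cF n N

lemma perf (hA : 1 ≤ A) (r : ℕ) (w : V) :
    R (r + 1) w ≤ xs G N R (r + cFin (Fintype.card V) N * A) w := by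
  have hmono := tau_strictMono hN hG hR
  have hex : ∃ j, r ≤ tau G N R j := ⟨r, hmono.le_apply⟩
  classical
  obtain ⟨i, hi⟩ : ∃ i, i = Nat.find hex := ⟨_, rfl⟩
  have h1 : r ≤ tau G N R i := by rw [hi]; exact Nat.find_spec hex
  have h2 : ∀ j, j < i → tau G N R j < r := by
    intro j hj
    rw [hi] at hj
    exact not_le.1 (Nat.find_min hex hj)
  have hpow : 2 ^ Nat.clog 2 A ≤ 2 * A := by
    rcases Nat.eq_or_lt_of_le hA with h | h
    · rw [← h]; simp
    · have h3 := Nat.pow_pred_clog_lt_self (b := 2) (by norm_num) h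
      have h4 : 1 ≤ Nat.clog 2 A := Nat.clog_pos (by norm_num) (by omega)
      obtain ⟨k, hk⟩ : ∃ k, Nat.clog 2 A = k + 1 := ⟨Nat.clog 2 A - 1, by omega⟩
      rw [hk] at h3 ⊢
      simp only [Nat.pred_succ] at h3
      rw [pow_succ]; omega
  have h3 : tau G N R i ≤ r + cD (Fintype.card V) N * (2 * A) := by
    rcases Nat.eq_zero_or_pos i with h0 | h0
    · rw [h0]; simp [tau]
    · obtain ⟨k, rfl⟩ : ∃ k, i = k + 1 := ⟨i - 1, by omega⟩
      have h4 := h2 k (Nat.lt_succ_self k)
      have h5 := tau_succ_le hN hG hR k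
      have h6 := lev_le (hy (tau G N R k))
      have h7 : 2 ^ lev G R (tau G N R k) ≤ 2 * A :=
        (Nat.pow_le_pow_right (by norm_num) h6).trans hpow
      have h8 := Nat.mul_le_mul_left (cD (Fintype.card V) N) h7
      omega
  refine (epochs hN hG hR hy hA r w (Nat.clog 2 A) i h1 (by omega)).trans (xs_mono G N R w ?_)
  have h9 : 2 ^ (Nat.clog 2 A + 1) - 2 ^ lev G R (tau G N R i) ≤ 4 * A := by
    refine (Nat.sub_le _ _).trans ?_
    rw [pow_succ]; omega
  have h10 := Nat.mul_le_mul_left (cF (Fintype.card V) N) h9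
  have h11 : cFin (Fintype.card V) N * A = cD (Fintype.card V) N * (2 * A) +
      cF (Fintype.card V) N * (4 * A) := by unfold cFin; ring
  show tau G N R i + cF (Fintype.card V) N * (2 ^ (Nat.clog 2 A + 1) - 2 ^ lev G R (tau G N R i)) ≤
    r + cFin (Fintype.card V) N * A
  omega

end

end Pool.Agent.H97.Flow
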