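import Mathlib
import Pool.Agent.H97.Flow.Defs
import Pool.Agent.H97.Flow.Perf
import Pool.Agent.H97.Flow.Bip
import Pool.Agent.H97.Flow.Intv

set_option linter.unusedSectionVars false
set_option linter.unusedVariables false

namespace Pool.Agent.H97.Flow

open Finset

/-! ### The algorithm sees only the past -/

section congr
variable {V : Type} [Fintype V] [DecidableEq V] (G : SimpleGraph V) (N : ℕ)

lemma plan_congr {R R' : ℕ → V → ℕ} {t : ℕ} (h : ∀ s ≤ t, R s = R' s) (x : V → ℕ) :
    plan G N R t x = plan G N R' t x := by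
  have : trunc R t = trunc R' t := by
    funext s; unfold trunc; exact h _ (min_le_right _ _)
  unfold plan; rw [this]

lemma cur_congr {R R' : ℕ → V → ℕ} {t : ℕ} (h : ∀ s ≤ t, R s = R' s) (σ : St V) :
    cur G N R t σ = cur G N R' t σ := by
  unfold cur; rw [plan_congr G N h]

lemma st_congr {R R' : ℕ → V → ℕ} {t : ℕ} (h : ∀ s ≤ t, R s = R' s) :
    st G N R t = st G N R' t := by
  induction t with
  | zero => rfl
  | succ t ih =>
    have h' : ∀ s ≤ t, R s = R' s := fun s hs => h s (by omega)
    simp only [st, serveSt, ih h', cur_congr G N h']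

lemma serve_congr {R R' : ℕ → V → ℕ} {t : ℕ} (h : ∀ s ≤ t, R s = R' s) :
    serve G N R t = serve G N R' t := by
  unfold serve serveSt
  rw [st_congr G N h, cur_congr G N h]

lemma xs_congr {R R' : ℕ → V → ℕ} {t : ℕ} (h : ∀ s ≤ t, R s = R' s) :
    xs G N R t = xs G N R' t := by
  unfold xs
  rw [st_congr G N h]

end congr

/-! ### Counting jobs -/

variable {v : ℕ}

lemma onVertex_lt {I : Inst v} {j : Job} {w : Fin v} (h : OnVertex I j w) :
    j.2 < (I j.1).length := by
  unfold OnVertex at h
  exact (List.getElem?_eq_some_iff.1 h).1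

lemma onVertex_unique {I : Inst v} {j : Job} {w w' : Fin v} (h : OnVertex I j w)
    (h' : OnVertex I j w') : w = w' := by
  unfold OnVertex at h h'
  rw [h] at h'
  exact Option.some.inj h'

open Classical in
/-- the jobs on `w` released before `t` -/
noncomputable def JJ (I : Inst v) (t : ℕ) (w : Fin v) : Finset Job :=
  ((Finset.range t).biUnion fun s => (Finset.range (I s).length).image (Prod.mk s)).filter
    (fun j => OnVertex I j w)

lemma mem_JJ {I : Inst v} {t : ℕ} {w : Fin v} {j : Job} :
    j ∈ JJ I t w ↔ j.1 < t ∧ OnVertex I j w := by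
  unfold JJ
  simp only [Finset.mem_filter, Finset.mem_biUnion, Finset.mem_range, Finset.mem_image]
  constructor
  · rintro ⟨⟨s, hs, k, hk, rfl⟩, h⟩
    exact ⟨hs, h⟩
  · rintro ⟨h1, h2⟩
    exact ⟨⟨j.1, h1, j.2, onVertex_lt h2, rfl⟩, h2⟩

noncomputable def RR (I : Inst v) : ℕ → Fin v → ℕ := fun t w => (JJ I t w).card

lemma arr_RR (I : Inst v) : Arr (RR I) := by
  refine ⟨fun w => ?_, fun w => ?_⟩
  · unfold RR
    rw [Finset.card_eq_zero, Finset.eq_empty_iff_forall_notMem]
    intro j hj
    rw [mem_JJ] at hj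
    omega
  · intro s t hst
    apply Finset.card_le_card
    intro j hj
    rw [mem_JJ] at hj ⊢
    exact ⟨by omega, hj.2⟩

/-- the order in which the jobs on one vertex are served -/
def lexlt (j j' : Job) : Prop := j.1 < j'.1 ∨ (j.1 = j'.1 ∧ j.2 < j'.2)

open Classical in
noncomputable def rank (I : Inst v) (w : Fin v) (j : Job) : ℕ :=
  ((JJ I (j.1 + 1) w).filter (fun j' => lexlt j' j)).card

lemma rank_lt {I : Inst v} {w : Fin v} {j : Job} (h : OnVertex I j w) :
    rank I w j < RR I (j.1 + 1) w := by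
  classical
  unfold rank RR
  apply Finset.card_lt_card
  rw [Finset.ssubset_iff_of_subset (Finset.filter_subset _ _)]
  refine ⟨j, mem_JJ.2 ⟨Nat.lt_succ_self _, h⟩, ?_⟩
  rw [Finset.mem_filter]
  rintro ⟨_, h1⟩
  unfold lexlt at h1
  omega

lemma le_rank {I : Inst v} {w : Fin v} {j : Job} :
    RR I j.1 w ≤ rank I w j := by
  classical
  unfold rank RR
  apply Finset.card_le_card
  intro j' hj'
  rw [mem_JJ] at hj'
  rw [Finset.mem_filter, mem_JJ]
  exact ⟨⟨by omega, hj'.2⟩, Or.inl hj'.1⟩

lemma rank_lt_rank {I : Inst v} {w : Fin v} {j j' : Job} (h : OnVertex I j w)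
    (hlt : lexlt j j') : rank I w j < rank I w j' := by
  classical
  unfold rank
  apply Finset.card_lt_card
  rw [Finset.ssubset_iff_of_subset]
  · refine ⟨j, ?_, ?_⟩
    · rw [Finset.mem_filter, mem_JJ]
      refine ⟨⟨?_, h⟩, hlt⟩
      unfold lexlt at hlt; omega
    · rw [Finset.mem_filter]
      rintro ⟨_, h1⟩
      unfold lexlt at h1
      omega
  · intro i hi
    rw [Finset.mem_filter, mem_JJ] at hi ⊢
    unfold lexlt at hi hlt ⊢
    exact ⟨⟨by omega, hi.1.2⟩, by omega⟩

lemma rank_inj {I : Inst v} {w : Fin v} {j j' : Job} (h : OnVertex I j w)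
    (h' : OnVertex I j' w) (heq : rank I w j = rank I w j') : j = j' := by
  by_contra hne
  have h1 : lexlt j j' ∨ lexlt j' j := by
    unfold lexlt
    by_contra hc
    push Not at hc
    apply hne
    ext <;> omega
  rcases h1 with h1 | h1
  · have := rank_lt_rank h h1; omega
  · have := rank_lt_rank h' h1; omega

/-! ### The reference schedule -/

open Classical in
noncomputable def yy (I : Inst v) (σ : Job → ℕ) : ℕ → Fin v → ℕ :=
  fun s w => ((JJ I s w).filter (fun j => σ j < s)).card

lemma opt_yy {G : SimpleGraph (Fin v)} {I : Inst v} {σ : Job → ℕ} {A : ℕ}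
    (hσ : IsSchedule G I σ) (hA : ∀ j w, OnVertex I j w → σ j + 1 ≤ j.1 + A) (t : ℕ) :
    Opt G (RR I) A t (yy I σ) := by
  classical
  refine ⟨fun s => ?_, fun s _ w => ?_, fun s _ w => ?_⟩
  · refine ⟨Finset.univ.filter fun w => ∃ j, OnVertex I j w ∧ σ j = s, ?_, ?_⟩
    · intro a ha b hb
      simp only [Finset.mem_filter, Finset.mem_univ, true_and] at ha hb
      obtain ⟨j, hj, hjs⟩ := ha
      obtain ⟨j', hj', hjs'⟩ := hb
      by_cases h : j = j'
      · subst h
        rw [onVertex_unique hj hj']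
        exact G.loopless.irrefl _
      · exact (hσ.conflict j j' a b hj hj' h (hjs.trans hjs'.symm)).2
    · funext w
      unfold yy add
      simp only [Finset.mem_filter, Finset.mem_univ, true_and]
      have h1 : (JJ I (s + 1) w).filter (fun j => σ j < s + 1) =
          (JJ I s w).filter (fun j => σ j < s) ∪ (JJ I (s + 1) w).filter (fun j => σ j = s) := by
        ext j
        simp only [Finset.mem_union, Finset.mem_filter, mem_JJ]
        constructor
        · rintro ⟨⟨h1, h2⟩, h3⟩
          have := hσ.release j w h2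
          rcases Nat.lt_or_ge (σ j) s with h4 | h4
          · exact Or.inl ⟨⟨by omega, h2⟩, h4⟩
          · exact Or.inr ⟨⟨h1, h2⟩, by omega⟩
        · rintro (⟨⟨h1, h2⟩, h3⟩ | ⟨⟨h1, h2⟩, h3⟩)
          · exact ⟨⟨by omega, h2⟩, by omega⟩
          · exact ⟨⟨h1, h2⟩, by omega⟩
      rw [h1, Finset.card_union_of_disjoint]
      · congr 1
        split_ifs with h2
        · obtain ⟨j, hj, hjs⟩ := h2
          rw [Finset.card_eq_one]
          refine ⟨j, ?_⟩
          ext j'
          simp only [Finset.mem_filter, mem_JJ, Finset.mem_singleton]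
          constructor
          · rintro ⟨⟨_, h4⟩, h5⟩
            by_contra hne
            exact (hσ.conflict j' j w w h4 hj hne (h5.trans hjs.symm)).1 rfl
          · rintro rfl
            have := hσ.release j' w hj
            exact ⟨⟨by omega, hj⟩, hjs⟩
        · rw [Finset.card_eq_zero, Finset.eq_empty_iff_forall_notMem]
          intro j hj
          rw [Finset.mem_filter, mem_JJ] at hj
          exact h2 ⟨j, hj.1.2, hj.2⟩
      · rw [Finset.disjoint_left]
        intro j h2 h3
        rw [Finset.mem_filter] at h2 h3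
        omega
  · unfold yy RR
    exact Finset.card_le_card (Finset.filter_subset _ _)
  · unfold yy RR
    apply Finset.card_le_card
    intro j hj
    rw [mem_JJ] at hj
    rw [Finset.mem_filter, mem_JJ]
    have h1 := hA j w hj.2
    have h2 := hσ.release j w hj.2
    exact ⟨⟨by omega, hj.2⟩, by omega⟩

/-! ### The algorithm -/

noncomputable def theAlg {G : SimpleGraph (Fin v)} {N : ℕ} (hN : 1 ≤ N) (hG : PhaseOK G N) :
    OnlineAlg G where
  run I t := {j | ∃ w, OnVertex I j w ∧ w ∈ serve G N (RR I) t ∧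
    rank I w j = xs G N (RR I) t w}
  online := by
    intro I I' t h
    have hR : ∀ s ≤ t, RR I s = RR I' s := by
      intro s hs
      funext w
      unfold RR
      congr 1
      ext j
      rw [mem_JJ, mem_JJ]
      unfold OnVertex
      constructor
      · rintro ⟨h1, h2⟩
        rw [h j.1 (by omega)] at h2
        exact ⟨h1, h2⟩
      · rintro ⟨h1, h2⟩
        rw [← h j.1 (by omega)] at h2
        exact ⟨h1, h2⟩
    have key : ∀ (I I' : Inst v), (∀ s ≤ t, I s = I' s) → (∀ s ≤ t, RR I s = RR I' s) →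
        {j | ∃ w, OnVertex I j w ∧ w ∈ serve G N (RR I) t ∧
          rank I w j = xs G N (RR I) t w} ⊆
        {j | ∃ w, OnVertex I' j w ∧ w ∈ serve G N (RR I') t ∧
          rank I' w j = xs G N (RR I') t w} := by
      rintro I I' h hR j ⟨w, h1, h2, h3⟩
      have h4 := (serve_legal hN hG (arr_RR I) t).2 w h2
      have h5 : RR I j.1 w ≤ rank I w j := le_rank
      have hj : j.1 < t := by
        by_contra hc
        have h6 := (arr_RR I).mono w (not_lt.1 hc)
        simp only at h6
        omega
      have hon : ∀ (j' : Job) (w : Fin v), j'.1 ≤ t → (OnVertex I j' w ↔ OnVertex I' j' w) := by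
        intro j' w hj'
        unfold OnVertex
        rw [h j'.1 hj']
      have hrank : rank I' w j = rank I w j := by
        classical
        unfold rank
        congr 1
        ext j'
        simp only [Finset.mem_filter, mem_JJ]
        constructor
        · rintro ⟨⟨h1, h2⟩, h3⟩
          exact ⟨⟨h1, (hon j' w (by omega)).2 h2⟩, h3⟩
        · rintro ⟨⟨h1, h2⟩, h3⟩
          exact ⟨⟨h1, (hon j' w (by omega)).1 h2⟩, h3⟩
      refine ⟨w, (hon j w hj.le).1 h1, ?_, ?_⟩
      · rw [← serve_congr G N hR]; exact h2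
      · rw [hrank, h3, xs_congr G N hR]
    exact Set.Subset.antisymm (key I I' h hR)
      (key I' I (fun s hs => (h s hs).symm) (fun s hs => (hR s hs).symm))
  released := by
    rintro I t j ⟨w, h1, h2, h3⟩
    refine ⟨?_, w, h1⟩
    have h4 := (serve_legal hN hG (arr_RR I) t).2 w h2
    have h5 : RR I j.1 w ≤ rank I w j := le_rank
    by_contra hc
    have h6 := (arr_RR I).mono w (not_le.1 hc).le
    simp only at h6
    omega
  once := by
    rintro I t t' j ⟨w, h1, h2, h3⟩ ⟨w', h1', h2', h3'⟩
    have hw := onVertex_unique h1 h1'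
    subst hw
    have key : ∀ t t' : ℕ, t < t' → w ∈ serve G N (RR I) t →
        xs G N (RR I) t w < xs G N (RR I) t' w := by
      intro t t' htt hw
      have h4 := xs_mono G N (RR I) w (show t + 1 ≤ t' from htt)
      simp only at h4
      rw [xs_succ] at h4
      simp only [add, hw, if_true] at h4
      omega
    rcases lt_trichotomy t t' with h | h | h
    · have := key t t' h h2; omega
    · exact h
    · have := key t' t h h2'; omega
  conflict := by
    rintro I t j j' w w' ⟨w1, h1, h2, h3⟩ ⟨w2, h1', h2', h3'⟩ hw hw' hne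
    have e1 := onVertex_unique h1 hw
    have e2 := onVertex_unique h1' hw'
    subst e1 e2
    refine ⟨?_, (serve_legal hN hG (arr_RR I) t).1 _ h2 _ h2'⟩
    rintro rfl
    exact hne (rank_inj hw hw' (h3.trans h3'.symm))

theorem theAlg_flow {G : SimpleGraph (Fin v)} {N : ℕ} (hN : 1 ≤ N) (hG : PhaseOK G N)
    (I : Inst v) (A : ℕ) (hI : HasFlow G I A) (j : Job) (w : Fin v) (hj : OnVertex I j w) :
    ∃ t, j ∈ (theAlg hN hG).run I t ∧ t + 1 ≤ j.1 + cFin v N * A := by
  obtain ⟨σ, hσ, hA⟩ := hI
  have hA1 : 1 ≤ A := by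
    have h1 := hA j w hj
    have h2 := hσ.release j w hj
    omega
  have h1 := perf hN hG (arr_RR I) (fun t => opt_yy hσ hA t) hA1 j.1 w
  rw [Fintype.card_fin] at h1
  have h2 := rank_lt hj
  have hex : ∃ T, rank I w j < xs G N (RR I) T w := ⟨_, h2.trans_le h1⟩
  classical
  obtain ⟨T, hT⟩ : ∃ T, T = Nat.find hex := ⟨_, rfl⟩
  have h3 : rank I w j < xs G N (RR I) T w := by rw [hT]; exact Nat.find_spec hex
  have h4 : T ≤ j.1 + cFin v N * A := by rw [hT]; exact Nat.find_min' hex (h2.trans_le h1)
  have h5 : T ≠ 0 := by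
    rintro rfl
    simp [xs, st] at h3
  obtain ⟨t, rfl⟩ : ∃ t, T = t + 1 := ⟨T - 1, by omega⟩
  have h6 : ¬ rank I w j < xs G N (RR I) t w := Nat.find_min hex (by omega)
  rw [xs_succ] at h3
  unfold add at h3
  refine ⟨t, ⟨w, hj, ?_, ?_⟩, h4⟩
  · by_contra hw
    rw [if_neg hw] at h3
    omega
  · split_ifs at h3 <;> omega

lemma PhaseOK.mono {V : Type} [Fintype V] [DecidableEq V] {G : SimpleGraph V} {N N' : ℕ}
    (h : PhaseOK G N) (hN : N ≤ N') : PhaseOK G N' := by
  intro u
  obtain ⟨T, ρ, cl, h1, h2⟩ := h u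
  exact ⟨T, ρ, cl, fun y c => (h1 y c).trans hN, h2⟩

/-- the main theorem -/
theorem main : ∃ f : ℕ → ℕ, ∀ (v : ℕ) (G : SimpleGraph (Fin v)),
    IsIntervalGraph G ∨ G.IsBipartite →
    ∃ alg : OnlineAlg G, ∀ (I : Inst v) (A : ℕ), HasFlow G I A →
      ∀ (j : Job) (w : Fin v), OnVertex I j w →
        ∃ t, j ∈ alg.run I t ∧ t + 1 ≤ j.1 + f v * A := by
  refine ⟨fun v => cFin v (v + 2 * BB v v + 1), fun v G hG => ?_⟩
  have hN : 1 ≤ v + 2 * BB v v + 1 := by omega
  have hP : PhaseOK G (v + 2 * BB v v + 1) := by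
    rcases hG with ⟨l, r, hlr, hG⟩ | hG
    · exact (phaseOK_intv hlr hG).mono (by omega)
    · obtain ⟨col⟩ := hG
      have := phaseOK_bip G (fun w => decide (col w = 0)) (by
        intro a b hab heq
        have h1 := col.valid hab
        apply h1
        simp only [decide_eq_decide] at heq
        omega)
      rw [Fintype.card_fin] at this
      exact this.mono (by omega)
  exact ⟨theAlg hN hP, fun I A hI j w hj => theAlg_flow hN hP I A hI j w hj⟩

end Pool.Agent.H97.Flow
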